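import Pool.Agent.H80.JN.Ty2

/-!
# Joint plays, type 1: an outer segment of `x` in the life of `y`

`JnCY y1 y2`: the two states of `y` between its last cut on the board `xy` and the completion: below the unit
the conditions `BC` hold.  `JnPO y1 y2`: at outer levels the marks of board `yz` are at levels below `κ`, the
marks of board `xy` at levels from `κ` on.
-/

set_option autoImplicit false

namespace Pool.Agent.H90.Ord

/-- in phase 1 of `XY1` the board `xz` is open above the pointer only at the root -/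
theorem jn_t1_open {red : List ℕ → List ℕ → Prop} {ann : Ann} {x1 y1 x2 : St}
    (hw : AW red XY1 ann x1 y1) (hp : ann.ph = 1) (hal : Ald true x1 x2 ann.ha)
    (ho : x2.OpenTop) (hl : ann.ha < x2.stk.length) : False := by
  obtain ⟨κ, γ, e, A, p, B, h2, h3, h4, h5⟩ := jn_ald_open hal (by rwa [hal.par.jn_length])
  have he : e.2.2 ≠ .none := jn_open_mark (s := x2) (lv := e.1) (t := p2 (A ++ p :: B)) h3 ho
  obtain ⟨lv, m1, m2⟩ := p
  rcases lv with k | k | _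
  · refine jn_pin hw hp ⟨(.inn k, m1), ?_, trivial⟩
    rw [h2, ← h4]
    exact jn_entry1
  · by_cases hκ : κ ≤ k
    · exact he ((h5.hA e List.mem_cons_self).1 k rfl hκ)
    · have hκ' : k < κ := by omega
      refine jn_stuckO hw hp ⟨p1 (e :: A), k, m1, p1 B, ?_, ?_, h5.hp.2.2.2.1 k rfl hκ', ?_⟩
      · rw [h2, p1_append]
        rfl
      · rw [p1_length, h4]
      · intro f hf
        obtain ⟨d, hd, rfl⟩ := List.mem_map.1 hf
        exact (h5.hA d hd).2.1 k rfl hκ'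
  · exact h5.hp.1

/-- stage A of type 1 -/
theorem jn_t1A {red : List ℕ → List ℕ → Prop} {ann : Ann} {x1 y1 : St}
    (hw : AW red XY1 ann x1 y1) :
    ∀ x2 y2, ann.ph = 1 → Ald true x1 x2 ann.ha → Ald true y1 y2 ann.hb →
      AW red XZ ⟨1, ann.ha, 0, false⟩ x2 start → AW red YZ ⟨1, ann.hb, 0, false⟩ y2 start →
      ∃ x1' x2' y1' y2' h hq, AW red XY1 ⟨2, h, 0, false⟩ x1' y1' ∧ y1'.Nonrun ∧ AT y1' hq ∧
        Ald true x1' x2' h ∧ Ald true y1' y2' hq ∧ AW red XZ ⟨1, h, 0, false⟩ x2' start ∧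
        AW red YZ ⟨1, hq, 0, false⟩ y2' start := by
  induction hw with
  | @done ann a b ha hb h hd =>
      intro x2 y2 hp _ _ _ _
      have h1 : ann.ph = 5 := hd
      omega
  | @pickA ann ann' a b n ha hb h0 ht h ih =>
      intro x2 y2 hp hal hay hxz hyz
      rcases ht with ⟨_, _, _, rfl⟩ | ⟨_, _, hat, _, rfl⟩ | ⟨_, h2, _⟩ | ⟨h1, _⟩ | ⟨h1, _⟩ |
        ⟨h1, _⟩ | ⟨h1, _⟩ | ⟨h1, _⟩ | ⟨h1, _⟩ | ⟨h1, _⟩ | ⟨h1, _⟩
      · exact ih x2 y2 hp (hal.pick1 n) hay hxz hyz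
      · exact ⟨a.pick n, x2, b, y2, ann.ha, ann.hb, h, hb, hat, hal.pick1 n, hay, hxz, hyz⟩
      · cases h2
      · omega
      · omega
      · omega
      · omega
      · omega
      · omega
      · omega
      · omega
  | @pickB ann ann' a b n ha hb h0 hr ht h ih =>
      intro x2 y2 hp hal hay hxz hyz
      rcases ht with ⟨_, h2, _⟩ | ⟨_, h2, _⟩ | ⟨_, _, _, rfl⟩ | ⟨h1, _⟩ | ⟨h1, _⟩ | ⟨h1, _⟩ |
        ⟨h1, _⟩ | ⟨h1, _⟩ | ⟨h1, _⟩ | ⟨h1, _⟩ | ⟨h1, _⟩
      · cases h2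
      · cases h2
      · exact ih x2 y2 hp hal (hay.pick1 n) hxz hyz
      · omega
      · omega
      · omega
      · omega
      · omega
      · omega
      · omega
      · omega
  | @stepA ann a b f T ha hb ht hT h ih =>
      intro x2 y2 hp hal hay hxz hyz
      have hw : AW red XY1 ann a b := AW.stepA f T ha hb ht hT h
      rcases ht with ⟨_, _, g, hg, rfl⟩ | ⟨_, h2, _⟩ | ⟨h1, _⟩ | ⟨h1, _⟩ | ⟨h1, _⟩ | ⟨h1, _⟩ |
        ⟨h1, _⟩ | ⟨h1, _⟩
      · have hat : ¬ AT x2 ann.ha := fun h5 => jn_at_ptr (hal.at_iff.2 h5) hg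
        obtain ⟨l, hl, x2', hal', hxz'⟩ := jn_step2 hal hg hT
          (jn_xz hxz (Or.inl rfl) jn_start_nonrun hat hal.jn_ne2
            (fun ho _ hlt => jn_t1_open hw hp hal ho hlt))
        exact ih l hl x2' y2 hp hal' hay hxz' hyz
      · cases h2
      · omega
      · omega
      · omega
      · omega
      · omega
      · omega
  | @stepB ann a b f T ha hb ht hT h ih =>
      intro x2 y2 hp hal hay hxz hyz
      rcases ht with ⟨_, h2, _⟩ | ⟨_, _, g, hg, rfl⟩ | ⟨h1, _⟩ | ⟨h1, _⟩ | ⟨h1, _⟩ | ⟨h1, _⟩ |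
        ⟨h1, _⟩ | ⟨h1, _⟩
      · cases h2
      · have hat : ¬ AT y2 ann.hb := fun h5 => jn_at_ptr (hay.at_iff.2 h5) hg
        obtain ⟨l, hl, y2', hay', hyz'⟩ := jn_step2 hay hg hT
          (jn_yz1 hyz jn_start_nonrun hat hay.jn_ne2)
        exact ih l hl x2 y2' hp hal hay' hxz hyz'
      · omega
      · omega
      · omega
      · omega
      · omega
      · omega

/-- `y` between its last cut on the board `xy` and the completion -/
def JnCY (y1 y2 : St) : Prop :=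
  y1.real = y2.real ∧ ∃ κ γ D, y1.stk = p1 D ∧ y2.stk = p2 D ∧ SortedD D ∧
    ((y2.pk = true ∧ ∃ B, D = (.inn 0, .U, .U) :: B ∧ ∀ e ∈ B, BC true κ γ e) ∨
      ∀ e ∈ D, BC true κ γ e)

theorem jn_par_double {s t : St} {D : List DE} (hr : s.real = t.real) (h1 : s.stk = p1 D)
    (h2 : t.stk = p2 D) : Par s t := by
  refine ⟨hr, ?_⟩
  rw [h1, h2]
  unfold p1 p2
  rw [List.map_map, List.map_map]
  rfl

theorem JnCY.par {y1 y2 : St} (h : JnCY y1 y2) : Par y1 y2 := by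
  obtain ⟨hr, κ, γ, D, h1, h2, _⟩ := h
  exact jn_par_double hr h1 h2

theorem JnCY.pick1 {y1 y2 : St} (h : JnCY y1 y2) (n : ℕ) : JnCY (y1.pick n) y2 := h

theorem jn_cy_start {y1 y2 : St} {h : ℕ} (hay : Ald true y1 y2 h) (hat : AT y1 h) (n : ℕ) :
    JnCY y1 (y2.pick n) := by
  obtain ⟨κ, γ, B, h1, h2, h3, h4⟩ := hay.target hat
  exact ⟨hay.par.1, κ, γ, _, h1, h2, h3, Or.inl ⟨rfl, B, rfl, h4⟩⟩

/-- the double stack after a step -/
theorem jn_double_step {s t : St} {lv : Lev} {m1 m2 : Mark} {D : List DE}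
    (h1 : s.stk = p1 ((lv, m1, m2) :: D)) (h2 : t.stk = p2 ((lv, m1, m2) :: D))
    {l1 l2 : List ℕ} (hl : l1.getLastD 0 = l2.getLastD 0) :
    ∃ K : List DE, kids lv m1 s.reg l1.dropLast (l1.getLastD 0) = p1 K ∧
      kids lv m2 t.reg l2.dropLast (l2.getLastD 0) = p2 K ∧
      (s.step l1).stk = p1 (K ++ D) ∧ (t.step l2).stk = p2 (K ++ D) ∧
      K.map Prod.fst = kidsLev lv (l1.getLastD 0) := by
  have h3 : s.stk = (lv, m1) :: p1 D := h1
  have h4 : t.stk = (lv, m2) :: p2 D := h2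
  obtain ⟨K, hK1, hK2⟩ := exists_double
    (K1 := kids lv m1 s.reg l1.dropLast (l1.getLastD 0))
    (K2 := kids lv m2 t.reg l2.dropLast (l2.getLastD 0)) (by rw [kids_fst, kids_fst, hl])
  refine ⟨K, hK1, hK2, ?_, ?_, ?_⟩
  · rw [step_stk h3, p1_append, hK1]
  · rw [step_stk h4, p2_append, hK2]
  · have h5 : (p1 K).map Prod.fst = K.map Prod.fst := by
      unfold p1
      rw [List.map_map]
      rfl
    rw [← h5, ← hK1, kids_fst]

theorem jn_kid_inn {j N : ℕ} {K : List DE} (hK : K.map Prod.fst = kidsLev (.inn j) N) {e : DE}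
    (he : e ∈ K) : ∃ i, e.1 = .inn i ∧ i ≤ j := by
  have h1 : e.1 ∈ kidsLev (.inn j) N := by
    rw [← hK]
    exact List.mem_map_of_mem he
  rcases j with _ | j
  · cases h1
  · exact ⟨j, (List.mem_replicate.1 h1).2, by omega⟩

/-- the state `y2` is running while `y1` has an inner mark -/
theorem jn_cy_run {y1 y2 : St} (h : JnCY y1 y2) (hm : HasInnerMark y1) :
    ∀ {T1 T2 : Set (List ℕ)}, Big (y1.need + 1) T1 → Big (y2.need + 1) T2 →
      ¬ y2.Nonrun ∧ ∃ l1 ∈ T1, ∃ l2 ∈ T2, JnCY (y1.step l1) (y2.step l2) := by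
  intro T1 T2 hT1 hT2
  obtain ⟨hr, κ, γ, D, h1, h2, hs, hD⟩ := h
  obtain ⟨l1, hl1, l2, hl2, he, _⟩ := big_common 0 hT1 hT2
  have hpar : Par y1 y2 := jn_par_double hr h1 h2
  rcases hD with ⟨hpk, B, rfl, hB⟩ | hD
  · obtain ⟨K, _, _, h5, h6, h7⟩ := jn_double_step h1 h2 he
    have hK : K = [] := List.map_eq_nil_iff.1 h7
    subst hK
    refine ⟨?_, l1, hl1, l2, hl2, (hpar.step he).1, κ, γ, B, h5, h6, ?_, Or.inr hB⟩
    · rintro (h8 | ⟨h8, _⟩)
      · rw [h2] at h8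
        cases h8
      · rw [hpk] at h8
        cases h8
    · exact (List.pairwise_cons.1 hs).2
  · obtain ⟨e, he1, he2, he3⟩ := hm
    rw [h1] at he1
    obtain ⟨d, hd, rfl⟩ := List.mem_map.1 he1
    obtain ⟨j, hj⟩ := jn_inner he2
    have hjγ : j < γ := ((hD d hd).2.1 j hj).1 he3
    rcases D with _ | ⟨⟨lv, m1, m2⟩, D⟩
    · cases hd
    · have hle : lv.le (.inn j) := by
        rcases List.mem_cons.1 hd with rfl | hd
        · have hj' : lv = .inn j := hj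
          rw [hj']
          exact le_refl' _
        · have h8 := (List.pairwise_cons.1 hs).1 d hd
          have hj' : d.1 = .inn j := hj
          rw [hj'] at h8
          exact h8
      obtain ⟨i, rfl⟩ : ∃ i, lv = .inn i := by
        rcases lv with i | i | _
        · exact ⟨i, rfl⟩
        · exact hle.elim
        · exact hle.elim
      have hij : i ≤ j := hle
      have hm2 : m2 = .none := by
        by_contra hne
        have := ((hD _ List.mem_cons_self).2.1 i rfl).2 hne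
        omega
      subst hm2
      obtain ⟨K, hK1, hK2, h5, h6, h7⟩ := jn_double_step h1 h2 he
      refine ⟨?_, l1, hl1, l2, hl2, (hpar.step he).1, κ, γ, K ++ D, h5, h6,
        sortedD_kids hs h7, Or.inr ?_⟩
      · have h2' : y2.stk = (.inn i, .none) :: p2 D := h2
        rintro (h8 | ⟨_, h8⟩)
        · rw [h2'] at h8
          cases h8
        · exact jn_top_unmarked h2' rfl h8
      · intro f hf
        rcases List.mem_append.1 hf with hf | hf
        · obtain ⟨i', hi', hle'⟩ := jn_kid_inn h7 hf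
          have hf2 : f.2.2 = .none := by
            have h9 : (f.1, f.2.2) ∈ kids (.inn i) .none y2.reg l2.dropLast (l2.getLastD 0) := by
              rw [hK2]
              exact List.mem_map_of_mem (f := fun e : DE => (e.1, e.2.2)) hf
            exact kids_unmarked _ _ _ _ _ h9
          refine ⟨?_, ?_, ?_⟩
          · intro k hk
            rw [hi'] at hk
            cases hk
          · intro k hk
            rw [hi'] at hk
            obtain rfl : i' = k := by injection hk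
            exact ⟨fun _ => by omega, fun h10 => absurd hf2 h10⟩
          · rw [hi']
            intro h10
            cases h10
        · exact hD f (List.mem_cons_of_mem _ hf)

/-- stage C of type 1 -/
theorem jn_t1C {red : List ℕ → List ℕ → Prop} {z1 z2 : St} (hz : z1.Nonrun)
    {ann : Ann} {x1 y1 : St} (hw : AW red XY1 ann x1 y1) :
    ∀ x2 y2, (ann.ph = 2 ∨ ann.ph = 3) → Ald true x1 x2 ann.ha →
      AW red XZ ⟨3, ann.ha, 0, false⟩ x2 z1 → JnCY y1 y2 → AW red YZ ⟨3, 0, 0, false⟩ y2 z2 →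
      ∃ x1' x2' y1' y2' m, AW red XY1 ⟨4, 0, 0, false⟩ x1' y1' ∧ Par x1' x2' ∧
        AW red XZ ⟨4, 0, 0, false⟩ x2' (z1.pick m) ∧ x1'.Nonrun ∧ x2'.Nonrun ∧
        JnCY y1' y2' ∧ AW red YZ ⟨3, 0, 0, false⟩ y2' z2 := by
  induction hw with
  | @done ann a b ha hb h hd =>
      intro x2 y2 hp _ _ _ _
      have h1 : ann.ph = 5 := hd
      omega
  | @pickA ann ann' a b n ha hb h0 ht h ih =>
      intro x2 y2 hp hal hxz hcy hyz
      rcases ht with ⟨h1, _⟩ | ⟨h1, _⟩ | ⟨_, h2, _⟩ | ⟨_, _, _, rfl⟩ | ⟨_, h2, _⟩ |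
        ⟨_, _, _, rfl⟩ | ⟨_, h2, _⟩ | ⟨_, h2, _⟩ | ⟨h1, _⟩ | ⟨h1, _⟩ | ⟨h1, _⟩
      · omega
      · omega
      · cases h2
      · exact ih x2 y2 hp (hal.pick1 n) hxz hcy hyz
      · cases h2
      · exact ih x2 y2 hp (hal.pick1 n) hxz hcy hyz
      · cases h2
      · cases h2
      · omega
      · omega
      · omega
  | @pickB ann ann' a b n ha hb h0 hr ht h ih =>
      intro x2 y2 hp hal hxz hcy hyz
      rcases ht with ⟨_, h2, _⟩ | ⟨_, h2, _⟩ | ⟨h1, _⟩ | ⟨_, h2, _⟩ | ⟨_, _, _, _, rfl⟩ |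
        ⟨_, h2, _⟩ | ⟨_, _, _, rfl⟩ | ⟨_, _, hat, rfl⟩ | ⟨h1, _⟩ | ⟨h1, _⟩ | ⟨h1, _⟩
      · cases h2
      · cases h2
      · omega
      · cases h2
      · exact ih x2 y2 (Or.inr rfl) hal hxz (hcy.pick1 n) hyz
      · cases h2
      · exact ih x2 y2 hp hal hxz (hcy.pick1 n) hyz
      · obtain ⟨hx2, m, hxz'⟩ := jn_xz3_at hxz hz (hal.at_iff.1 hat)
        exact ⟨a, x2, b.pick n, y2, m, h, hal.par, hxz', ha, hx2, hcy.pick1 n, hyz⟩
      · omega
      · omega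
      · omega
  | @stepA ann a b f T ha hb ht hT h ih =>
      intro x2 y2 hp hal hxz hcy hyz
      have key : ∀ g : List ℕ → ℕ, PtrStep ann.ha a g → ∃ l ∈ T, ∃ x2',
          Ald true (a.step l) x2' (g l) ∧ AW red XZ ⟨3, g l, 0, false⟩ x2' z1 := by
        intro g hg
        have hat : ¬ AT x2 ann.ha := fun h5 => jn_at_ptr (hal.at_iff.2 h5) hg
        have hc : x2.OpenTop → ((3 : ℕ) = 1 ∨ ((3 : ℕ) = 6 ∧ PIn x2 ann.ha)) →
            ¬ ann.ha < x2.stk.length := by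
          intro _ h6
          omega
        exact jn_step2 (P := fun h' s => AW red XZ ⟨3, h', 0, false⟩ s z1) hal hg hT
          (jn_xz hxz (Or.inr (Or.inr rfl)) hz hat hal.jn_ne2 hc)
      rcases ht with ⟨h1, _⟩ | ⟨h1, _⟩ | ⟨_, _, g, hg, rfl⟩ | ⟨_, _, g, hg, rfl⟩ | ⟨_, h2, _⟩ |
        ⟨h1, _⟩ | ⟨h1, _⟩ | ⟨h1, _⟩
      · omega
      · omega
      · obtain ⟨l, hl, x2', hal', hxz'⟩ := key g hg
        exact ih l hl x2' y2 hp hal' hxz' hcy hyz
      · obtain ⟨l, hl, x2', hal', hxz'⟩ := key g hg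
        exact ih l hl x2' y2 hp hal' hxz' hcy hyz
      · cases h2
      · omega
      · omega
      · omega
  | @stepB ann a b f T ha hb ht hT h ih =>
      intro x2 y2 hp hal hxz hcy hyz
      rcases ht with ⟨h1, _⟩ | ⟨h1, _⟩ | ⟨_, h2, _⟩ | ⟨_, h2, _⟩ | ⟨_, _, hm, rfl⟩ |
        ⟨h1, _⟩ | ⟨h1, _⟩ | ⟨h1, _⟩
      · omega
      · omega
      · cases h2
      · cases h2
      · have hr2 : ¬ y2.Nonrun := (jn_cy_run hcy hm hT (big_fresh (y2.need + 1) 0)).1
        obtain ⟨f2, T2, ht2, hT2, hh2⟩ := hyz.jn_runA hr2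
        rcases ht2 with ⟨h1, _⟩ | ⟨h1, _⟩ | ⟨_, _, rfl⟩
        · cases h1
        · cases h1
        · obtain ⟨_, l1, hl1, l2, hl2, hcy'⟩ := jn_cy_run hcy hm hT hT2
          exact ih l1 hl1 x2 (y2.step l2) hp hal hxz hcy' (hh2 l2 hl2)
      · omega
      · omega
      · omega

/-- the outer marks of board 2 are at levels below `κ`, those of board 1 from `κ` on -/
def JnPO (y1 y2 : St) : Prop :=
  y1.real = y2.real ∧ ∃ κ D, y1.stk = p1 D ∧ y2.stk = p2 D ∧ SortedD D ∧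
    ∀ e ∈ D, (∀ j, e.1 = .out j → (e.2.1 ≠ .none → κ ≤ j) ∧ (e.2.2 ≠ .none → j < κ)) ∧
      e.1 ≠ .root

theorem JnCY.po {y1 y2 : St} (h : JnCY y1 y2) : JnPO y1 y2 := by
  obtain ⟨hr, κ, γ, D, h1, h2, hs, hD⟩ := h
  refine ⟨hr, κ, D, h1, h2, hs, ?_⟩
  rcases hD with ⟨_, B, rfl, hB⟩ | hD
  · intro e he
    rcases List.mem_cons.1 he with rfl | he
    · refine ⟨?_, ?_⟩
      · intro j hj
        cases hj
      · intro hj
        cases hj
    · exact ⟨(hB e he).1, (hB e he).2.2⟩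
  · intro e he
    exact ⟨(hD e he).1, (hD e he).2.2⟩

theorem jn_split {κ : ℕ} {D : List DE} (hs : SortedD D) (ho : ∀ e ∈ D, ∃ j, e.1 = Lev.out j) :
    ∃ A B, D = A ++ B ∧ (∀ e ∈ A, ∃ j, e.1 = Lev.out j ∧ j < κ) ∧
      (∀ e ∈ B, ∃ j, e.1 = Lev.out j ∧ κ ≤ j) := by
  induction D with
  | nil =>
      refine ⟨[], [], rfl, ?_, ?_⟩
      · intro e he
        cases he
      · intro e he
        cases he
  | cons d D ih =>
      obtain ⟨j, hj⟩ := ho d List.mem_cons_self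
      have hs' := List.pairwise_cons.1 hs
      by_cases hκ : j < κ
      · obtain ⟨A, B, rfl, h1, h2⟩ := ih hs'.2 (fun e he => ho e (List.mem_cons_of_mem _ he))
        refine ⟨d :: A, B, rfl, ?_, h2⟩
        intro e he
        rcases List.mem_cons.1 he with rfl | he
        · exact ⟨j, hj, hκ⟩
        · exact h1 e he
      · refine ⟨[], d :: D, rfl, ?_, ?_⟩
        · intro e he
          cases he
        · intro e he
          rcases List.mem_cons.1 he with rfl | he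
          · exact ⟨j, hj, by omega⟩
          · obtain ⟨i, hi⟩ := ho e (List.mem_cons_of_mem _ he)
            have h3 := hs'.1 e he
            rw [hj, hi] at h3
            have h4 : j ≤ i := h3
            exact ⟨i, hi, by omega⟩

/-- when the top is outer, the marks of board `yz` are above the marks of board `xy` -/
theorem jn_po_seq {y1 y2 : St} (h : JnPO y1 y2) (ht : TopOut y1) : SeqS y2 y1 := by
  obtain ⟨hr, κ, D, h1, h2, hs, hD⟩ := h
  have ho : ∀ e ∈ D, ∃ j, e.1 = Lev.out j := by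
    obtain ⟨l, m, t, h3, h4⟩ := ht
    rcases D with _ | ⟨d, D⟩
    · rw [h1] at h3
      cases h3
    · have h1' : y1.stk = (d.1, d.2.1) :: p1 D := h1
      rw [h1', List.cons.injEq, Prod.mk.injEq] at h3
      have h5 : ¬ d.1.IsInn := by
        rw [h3.1.1]
        exact h4
      have hs' := List.pairwise_cons.1 hs
      intro e he
      have h6 : ¬ e.1.IsInn := by
        rcases List.mem_cons.1 he with rfl | he
        · exact h5
        · have h7 := hs'.1 e he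
          intro h8
          obtain ⟨i, hi⟩ := jn_inner h8
          rw [hi] at h7
          rcases hd : d.1 with k | k | _
          · rw [hd] at h5
            exact h5 trivial
          · rw [hd] at h7
            exact h7
          · rw [hd] at h7
            exact h7
      rcases he1 : e.1 with k | k | _
      · rw [he1] at h6
        exact absurd trivial h6
      · exact ⟨k, rfl⟩
      · exact absurd he1 (hD e he).2
  obtain ⟨A, B, rfl, hA, hB⟩ := jn_split (κ := κ) hs ho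
  refine ⟨hr.symm, Or.inr (Or.inr ⟨p2 A, p2 B, p1 A, p1 B, ?_, ?_, ?_, ?_, ?_, ?_⟩)⟩
  · rw [h2, p2_append]
  · rw [h1, p1_append]
  · unfold p1 p2
    rw [List.map_map, List.map_map]
    rfl
  · unfold p1 p2
    rw [List.map_map, List.map_map]
    rfl
  · intro e he
    obtain ⟨d, hd, rfl⟩ := List.mem_map.1 he
    obtain ⟨j, hj, hκ⟩ := hB d hd
    by_contra hne
    have := ((hD d (List.mem_append_right _ hd)).1 j hj).2 hne
    omega
  · intro e he
    obtain ⟨d, hd, rfl⟩ := List.mem_map.1 he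
    obtain ⟨j, hj, hκ⟩ := hA d hd
    by_contra hne
    have := ((hD d (List.mem_append_left _ hd)).1 j hj).1 hne
    omega

/-- a step with inner top -/
theorem jn_po_step {y1 y2 : St} (h : JnPO y1 y2) (h0 : y1.stk ≠ []) (ht : ¬ TopOut y1)
    {l1 l2 : List ℕ} (he : l1.getLastD 0 = l2.getLastD 0) : JnPO (y1.step l1) (y2.step l2) := by
  obtain ⟨hr, κ, D, h1, h2, hs, hD⟩ := h
  have hpar : Par y1 y2 := jn_par_double hr h1 h2
  rcases D with _ | ⟨⟨lv, m1, m2⟩, D⟩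
  · exact absurd h1 h0
  · have hin : lv.IsInn := by
      by_contra hno
      exact ht ⟨lv, m1, p1 D, h1, hno⟩
    obtain ⟨i, rfl⟩ := jn_inner hin
    obtain ⟨K, _, _, h5, h6, h7⟩ := jn_double_step h1 h2 he
    refine ⟨(hpar.step he).1, κ, K ++ D, h5, h6, sortedD_kids hs h7, ?_⟩
    intro e he'
    rcases List.mem_append.1 he' with he' | he'
    · obtain ⟨i', hi', _⟩ := jn_kid_inn h7 he'
      refine ⟨?_, ?_⟩
      · intro j hj
        rw [hi'] at hj
        cases hj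
      · intro hj
        rw [hi'] at hj
        cases hj
    · exact hD e (List.mem_cons_of_mem _ he')

/-- the vertex `y` in stage D of type 1 -/
def JnFY (red : List ℕ → List ℕ → Prop) (x1 y1 y2 : St) : Prop :=
  (AW red XY1 ⟨4, 0, 0, false⟩ x1 y1 ∧ JnPO y1 y2) ∨
  (AW red XY1 ⟨4, 0, 0, true⟩ x1 y1 ∧ SeqS y2 y1)

theorem jn_fy_par {red : List ℕ → List ℕ → Prop} {x1 y1 y2 : St} (h : JnFY red x1 y1 y2) :
    Par y1 y2 := by
  rcases h with ⟨_, hr, κ, D, h1, h2, _⟩ | ⟨_, h⟩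
  · exact jn_par_double hr h1 h2
  · exact h.par.symm

/-- phase 4 of `XY1`: a step of the second vertex -/
theorem jn_xy4_run {red : List ℕ → List ℕ → Prop} {fl : Bool} {x1 y1 : St}
    (hw : AW red XY1 ⟨4, 0, 0, fl⟩ x1 y1) (hr : ¬ y1.Nonrun) : ∃ T, Big (y1.need + 1) T ∧
      ((TopOut y1 ∧ ∀ l ∈ T, AW red XY1 ⟨4, 0, 0, true⟩ x1 (y1.step l)) ∨
        (¬ TopOut y1 ∧ ∀ l ∈ T, AW red XY1 ⟨4, 0, 0, fl⟩ x1 (y1.step l))) := by
  obtain ⟨f, T, ht, hT, hh⟩ := hw.jn_runB hr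
  rcases ht with ⟨h1, _⟩ | ⟨h1, _⟩ | ⟨h1, _⟩ | ⟨h1, _⟩ | ⟨h1, _⟩ | ⟨_, _, h3, rfl⟩ |
    ⟨_, _, h3, rfl⟩ | ⟨h1, _⟩
  · cases h1
  · cases h1
  · cases h1
  · cases h1
  · cases h1
  · exact ⟨T, hT, Or.inl ⟨h3, hh⟩⟩
  · exact ⟨T, hT, Or.inr ⟨h3, hh⟩⟩
  · cases h1

/-- phase 4 of `XY1` with flag `false`: the second vertex can be moved -/
theorem jn_xy4_pick {red : List ℕ → List ℕ → Prop} {x1 y1 : St}
    (hw : AW red XY1 ⟨4, 0, 0, false⟩ x1 y1) (hx : x1.Nonrun) (h0 : y1.stk ≠ []) :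
    ∃ y1', (y1' = y1 ∨ ∃ n, y1' = y1.pick n) ∧ ¬ y1'.Nonrun ∧
      AW red XY1 ⟨4, 0, 0, false⟩ x1 y1' := by
  by_cases hn : y1.Nonrun
  · rcases hw.jn_non hx hn with ⟨_, _, hd⟩ | ⟨n, ann', _, ht, hh⟩ | ⟨n, ann', _, ht, hh⟩
    · cases hd
    · rcases ht with ⟨h1, _⟩ | ⟨h1, _⟩ | ⟨h1, _⟩ | ⟨h1, _⟩ | ⟨h1, _⟩ | ⟨h1, _⟩ | ⟨h1, _⟩ |
        ⟨_, h2, _⟩ | ⟨_, h2, _⟩ | ⟨_, _, h3, _⟩ | ⟨h1, _⟩
      · cases h1
      · cases h1
      · cases h1
      · cases h1
      · cases h1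
      · cases h1
      · cases h1
      · cases h2
      · cases h2
      · rcases h3 with h3 | h3
        · cases h3
        · exact absurd h3 h0
      · cases h1
    · rcases ht with ⟨h1, _⟩ | ⟨h1, _⟩ | ⟨h1, _⟩ | ⟨h1, _⟩ | ⟨h1, _⟩ | ⟨h1, _⟩ | ⟨h1, _⟩ |
        ⟨h1, _⟩ | ⟨_, _, rfl⟩ | ⟨_, h2, _⟩ | ⟨h1, _⟩
      · cases h1
      · cases h1
      · cases h1
      · cases h1
      · cases h1
      · cases h1
      · cases h1
      · rcases h1 with h1 | h1 <;> cases h1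
      · exact ⟨_, Or.inr ⟨n, rfl⟩, not_nonrun_pick h0 n, hh⟩
      · cases h2
      · cases h1
  · exact ⟨_, Or.inl rfl, hn, hw⟩

theorem jn_po_pick {y1 y2 y1' : St} (h : JnPO y1 y2) (h' : y1' = y1 ∨ ∃ n, y1' = y1.pick n) :
    JnPO y1' y2 := by
  rcases h' with rfl | ⟨n, rfl⟩
  · exact h
  · exact h

/-- `y` follows its moves on the board `yz` on the board `xy` -/
theorem jn_fy_step {red : List ℕ → List ℕ → Prop} {x1 : St} (hx : x1.Nonrun) {y1 y2 : St}
    (h : JnFY red x1 y1 y2) (hr : ¬ y2.Nonrun) (hm : HasMark y2) {T : Set (List ℕ)}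
    (hT : Big (y2.need + 1) T) : ∃ l ∈ T, ∃ y1', JnFY red x1 y1' (y2.step l) := by
  have h0 : y1.stk ≠ [] := fun h0 => ne_nil_of_run hr ((jn_fy_par h).nil_iff.1 h0)
  rcases h with ⟨hw, hpo⟩ | ⟨hw, hseq⟩
  · obtain ⟨y1', hy1', hr1, hw'⟩ := jn_xy4_pick hw hx h0
    have hpo' : JnPO y1' y2 := jn_po_pick hpo hy1'
    obtain ⟨T', hT', ⟨hto, hh⟩ | ⟨hto, hh⟩⟩ := jn_xy4_run hw' hr1
    · obtain ⟨l1, hl1, l2, hl2, _, hs⟩ := (jn_po_seq hpo' hto).step hm hT hT'
      exact ⟨l1, hl1, _, Or.inr ⟨hh l2 hl2, hs⟩⟩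
    · obtain ⟨l1, hl1, l2, hl2, he, _⟩ := big_common 0 hT hT'
      exact ⟨l1, hl1, _, Or.inl ⟨hh l2 hl2, jn_po_step hpo' (ne_nil_of_run hr1) hto he.symm⟩⟩
  · have hr1 : ¬ y1.Nonrun := hseq.run hm
    obtain ⟨T', hT', ⟨_, hh⟩ | ⟨_, hh⟩⟩ := jn_xy4_run hw hr1
    · obtain ⟨l1, hl1, l2, hl2, _, hs⟩ := hseq.step hm hT hT'
      exact ⟨l1, hl1, _, Or.inr ⟨hh l2 hl2, hs⟩⟩
    · obtain ⟨l1, hl1, l2, hl2, _, hs⟩ := hseq.step hm hT hT'
      exact ⟨l1, hl1, _, Or.inr ⟨hh l2 hl2, hs⟩⟩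

theorem jn_fy_pick {red : List ℕ → List ℕ → Prop} {x1 y1 y2 : St} (n : ℕ)
    (h : JnFY red x1 y1 y2) : JnFY red x1 y1 (y2.pick n) := by
  rcases h with ⟨hw, h⟩ | ⟨hw, h⟩
  · exact Or.inl ⟨hw, h⟩
  · exact Or.inr ⟨hw, h.pick1 n⟩

/-- **type 1** -/
theorem join1 {red : List ℕ → List ℕ → Prop} (hxy : AW red XY1 ⟨1, 1, 1, false⟩ start start)
    (hxz : AW red XZ ⟨1, 1, 0, false⟩ start start)
    (hyz : AW red YZ ⟨1, 1, 0, false⟩ start start) : Tri red := by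
  obtain ⟨x1, x2, y1, y2, h, hq, hxy1, hy1, hat, hal, hay, hxz1, hyz1⟩ :=
    jn_t1A hxy start start rfl (ald_start true) (ald_start true) hxz hyz
  have hF : JnFX true (fun h' s => AW red XY1 ⟨2, h', 0, false⟩ s y1) := by
    intro h' s1 s2 hf hal' hat' hst
    exact jn_xy2 hf hy1 hat' hal'.jn_ne1
      (fun ho hp hlt => hst (jn_ald_stuck1 hal' ho hp hlt))
  obtain ⟨x1', x2', z1, z2, h', n, hxy', hal', hxz', hz1, pz, hz2, hyz'⟩ :=
    jn_stAB hF (Or.inl rfl) hxz1 hal hxy1 hay hat hyz1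
  obtain ⟨x1'', x2'', y1'', y2'', m, hxy'', px, hxz'', hx1, hx2, hcy, hyz''⟩ :=
    jn_t1C hz1 hxy' x2' (y2.pick n) (Or.inl rfl) hal' hxz' (jn_cy_start hay hat n) hyz'
  refine jn_stD (FY := JnFY red x1'') ?_ jn_fy_par (fun n h => jn_fy_pick n h) ?_ px hx2 hyz''
    y1'' (z1.pick m) rfl (Or.inl ⟨hxy'', hcy.po⟩) (pz.pick1 m) hxz''
  · intro s t hf
    rcases hf with ⟨hw, _⟩ | ⟨hw, _⟩
    · exact hw.win
    · exact hw.win
  · intro s t hf hr hm T hT
    exact jn_fy_step hx1 hf hr hm hT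

end Pool.Agent.H90.Ord
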