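import Pool.Agent.H11.JN.Seq

/-!
# Joint plays, types 1 and 2: inversions of annotated games, followers

`JnF P h s`: the state `s` of one vertex, with pointer `h`, can be moved (after a pick if it is open), and the
pointer is updated by a rule of `PtrStep`; after the move the predicate `P` holds again.
-/

set_option autoImplicit false

namespace Pool.Agent.H90.Ord

/-- the first vertex is running -/
theorem AW.jn_runA {red : List ℕ → List ℕ → Prop} {A : Auto} {ann : Ann} {a b : St}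
    (h : AW red A ann a b) (ha : ¬ a.Nonrun) : ∃ f T, A.stepT ann true a b f ∧
      Big (a.need + 1) T ∧ ∀ l ∈ T, AW red A (f l) (a.step l) b := by
  cases h with
  | done ha' _ _ _ => exact absurd (Or.inl ha') ha
  | pickA n ha' _ _ _ _ => exact absurd ha' ha
  | pickB n ha' _ _ _ _ _ => exact absurd ha' ha
  | stepA f T _ _ ht hT h => exact ⟨f, T, ht, hT, h⟩
  | stepB f T ha' _ _ _ _ => exact absurd ha' ha

/-- the second vertex is running -/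
theorem AW.jn_runB {red : List ℕ → List ℕ → Prop} {A : Auto} {ann : Ann} {a b : St}
    (h : AW red A ann a b) (hb : ¬ b.Nonrun) : ∃ f T, A.stepT ann false a b f ∧
      Big (b.need + 1) T ∧ ∀ l ∈ T, AW red A (f l) a (b.step l) := by
  cases h with
  | done _ hb' _ _ => exact absurd (Or.inl hb') hb
  | pickA n _ hb' _ _ _ => exact absurd hb' hb
  | pickB n _ hb' _ _ _ _ => exact absurd hb' hb
  | stepA f T _ hb' _ _ _ => exact absurd hb' hb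
  | stepB f T _ _ ht hT h => exact ⟨f, T, ht, hT, h⟩

/-- no vertex is running -/
theorem AW.jn_non {red : List ℕ → List ℕ → Prop} {A : Auto} {ann : Ann} {a b : St}
    (h : AW red A ann a b) (ha : a.Nonrun) (hb : b.Nonrun) :
    (a.stk = [] ∧ b.stk = [] ∧ A.doneT ann) ∨
    (∃ n ann', a.stk ≠ [] ∧ A.pickT ann true a b ann' ∧ AW red A ann' (a.pick n) b) ∨
    (∃ n ann', b.stk ≠ [] ∧ A.pickT ann false a b ann' ∧ AW red A ann' a (b.pick n)) := by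
  cases h with
  | done ha' hb' _ hd => exact Or.inl ⟨ha', hb', hd⟩
  | pickA n _ _ h0 ht h => exact Or.inr (Or.inl ⟨n, _, h0, ht, h⟩)
  | pickB n _ _ h0 _ ht h => exact Or.inr (Or.inr ⟨n, _, h0, ht, h⟩)
  | stepA f T ha' _ _ _ _ => exact absurd ha ha'
  | stepB f T _ hb' _ _ _ => exact absurd hb hb'

/-- the pointer never moves at the target -/
theorem jn_at_ptr {h : ℕ} {s : St} {g : List ℕ → ℕ} (hat : AT s h) (hp : PtrStep h s g) : False := by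
  obtain ⟨h1, t, h2⟩ := hat
  cases hp with
  | zero =>
      rw [h2] at h1
      cases h1
  | keep h0 h3 =>
      rw [h1] at h3
      exact lt_irrefl _ h3
  | single hs hl =>
      rw [h2, List.cons.injEq, Prod.mk.injEq] at hs
      rcases hl with rfl | rfl
      · cases hs.1.1
      · cases hs.1.1
  | child k i hs hl hi =>
      rw [h2, List.cons.injEq, Prod.mk.injEq] at hs
      rcases hl with rfl | rfl
      · cases hs.1.1
      · cases hs.1.1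

theorem jn_at_nt {h : ℕ} {s : St} (hat : AT s h) (hn : NT s h) : False := by
  obtain ⟨h1, t, h2⟩ := hat
  rcases hn with h3 | ⟨u, h3⟩
  · rw [h1] at h3
    exact lt_irrefl _ h3
  · rw [h2] at h3
    cases h3

theorem jn_at_lt {h : ℕ} {s : St} (hat : AT s h) (hn : h < s.stk.length) : False := by
  rw [hat.1] at hn
  exact lt_irrefl _ hn

/-- the state `s` with pointer `h` can be moved -/
def JnF (P : ℕ → St → Prop) (h : ℕ) (s : St) : Prop :=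
  ∃ s' g T, (s' = s ∨ ∃ n, s' = s.pick n) ∧ PtrStep h s' g ∧ Big (s'.need + 1) T ∧
    ∀ l ∈ T, P (g l) (s'.step l)

theorem jn_pick_step {s : St} {h : ℕ} {g : List ℕ → ℕ} {n : ℕ} (hp : PtrStep h (s.pick n) g) :
    PtrStep h (s.pick n) g := hp

/-- alignment follows a pick -/
theorem Ald.jn_pick1 {ε : Bool} {s t s' : St} {h : ℕ} (ha : Ald ε s t h)
    (hs : s' = s ∨ ∃ n, s' = s.pick n) : Ald ε s' t h := by
  rcases hs with rfl | ⟨n, rfl⟩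
  · exact ha
  · exact ha.pick1 n

theorem Ald.jn_pick2 {ε : Bool} {s t t' : St} {h : ℕ} (ha : Ald ε s t h)
    (ht : t' = t ∨ ∃ n, t' = t.pick n) : Ald ε s t' h := by
  rcases ht with rfl | ⟨n, rfl⟩
  · exact ha
  · exact ha.pick2 n

theorem Ald.jn_ne1 {ε : Bool} {s t : St} {h : ℕ} (ha : Ald ε s t h) : s.stk ≠ [] := ha.pos.2

theorem Ald.jn_ne2 {ε : Bool} {s t : St} {h : ℕ} (ha : Ald ε s t h) : t.stk ≠ [] :=
  fun h0 => ha.pos.2 (ha.par.stk_nil.2 h0)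

theorem jn_open_of_nonrun {s : St} (h : s.Nonrun) (h0 : s.stk ≠ []) : s.OpenTop := by
  rcases h with h | ⟨_, h⟩
  · exact absurd h h0
  · exact h

theorem jn_nonrun_of_open {s : St} (h : s.OpenTop) (h0 : s.pk = false) : s.Nonrun := Or.inr ⟨h0, h⟩

/-- board 2 follows a step of board 1 -/
theorem jn_step2 {ε : Bool} {s t : St} {h : ℕ} {P : ℕ → St → Prop} (ha : Ald ε s t h)
    {g : List ℕ → ℕ} (hg : PtrStep h s g) {T : Set (List ℕ)} (hT : Big (s.need + 1) T)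
    (hF : JnF P h t) : ∃ l ∈ T, ∃ t', Ald ε (s.step l) t' (g l) ∧ P (g l) t' := by
  obtain ⟨t', g', T', ht', hg', hT', hP⟩ := hF
  obtain ⟨l1, hl1, l2, hl2, _, _, _, _, _, he, hal⟩ := ald_step (ha.jn_pick2 ht') hg hg' hT hT'
  exact ⟨l1, hl1, _, hal, by rw [he]; exact hP l2 hl2⟩

/-- board 1 follows a step of board 2 -/
theorem jn_step1 {ε : Bool} {s t : St} {h : ℕ} {P : ℕ → St → Prop} (ha : Ald ε s t h)
    {g : List ℕ → ℕ} (hg : PtrStep h t g) {T : Set (List ℕ)} (hT : Big (t.need + 1) T)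
    (hF : JnF P h s) : ∃ l ∈ T, ∃ s', Ald ε s' (t.step l) (g l) ∧ P (g l) s' := by
  obtain ⟨s', g', T', hs', hg', hT', hP⟩ := hF
  obtain ⟨l1, hl1, l2, hl2, _, _, _, _, _, he, hal⟩ := ald_step (ha.jn_pick1 hs') hg' hg hT' hT
  rw [he] at hal
  exact ⟨l2, hl2, _, hal, by rw [← he]; exact hP l1 hl1⟩

/-- followers on the board `yz`, phase 1 -/
theorem jn_yz1 {red : List ℕ → List ℕ → Prop} {h k : ℕ} {fl : Bool} {y b : St}
    (hw : AW red YZ ⟨1, h, k, fl⟩ y b) (hb : b.Nonrun) (hat : ¬ AT y h) (h0 : y.stk ≠ []) :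
    JnF (fun h' s => AW red YZ ⟨1, h', k, fl⟩ s b) h y := by
  have hrun : ∀ y' : St, AW red YZ ⟨1, h, k, fl⟩ y' b → ¬ y'.Nonrun → ∃ g T, PtrStep h y' g ∧
      Big (y'.need + 1) T ∧ ∀ l ∈ T, AW red YZ ⟨1, g l, k, fl⟩ (y'.step l) b := by
    intro y' hw' hr
    obtain ⟨f, T, ht, hT, hh⟩ := hw'.jn_runA hr
    rcases ht with ⟨_, _, g, hg, rfl⟩ | ⟨_, h2, _⟩ | ⟨h1, _⟩
    · exact ⟨g, T, hg, hT, hh⟩
    · cases h2
    · cases h1
  by_cases hn : y.Nonrun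
  · rcases hw.jn_non hn hb with ⟨_, _, hd⟩ | ⟨n, ann', _, ht, hh⟩ | ⟨n, ann', _, ht, hh⟩
    · cases hd
    · rcases ht with ⟨_, _, _, rfl⟩ | ⟨_, h2, _⟩ | ⟨h1, _⟩ | ⟨h1, _⟩ | ⟨h1, _⟩
      · obtain ⟨g, T, hg, hT, hh⟩ := hrun _ hh (not_nonrun_pick h0 n)
        exact ⟨_, g, T, Or.inr ⟨n, rfl⟩, hg, hT, hh⟩
      · cases h2
      · cases h1
      · cases h1
      · cases h1
    · rcases ht with ⟨_, h2, _⟩ | ⟨_, _, h3, _⟩ | ⟨h1, _⟩ | ⟨h1, _⟩ | ⟨h1, _⟩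
      · cases h2
      · exact absurd h3 hat
      · cases h1
      · cases h1
      · cases h1
  · obtain ⟨g, T, hg, hT, hh⟩ := hrun _ hw hn
    exact ⟨_, g, T, Or.inl rfl, hg, hT, hh⟩

/-- followers on the board `yz`, phase 2 (second vertex) -/
theorem jn_yz2 {red : List ℕ → List ℕ → Prop} {h k : ℕ} {fl : Bool} {a z : St}
    (hw : AW red YZ ⟨2, k, h, fl⟩ a z) (ha : a.Nonrun) (hat : ¬ AT z h) (h0 : z.stk ≠ []) :
    JnF (fun h' s => AW red YZ ⟨2, k, h', fl⟩ a s) h z := by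
  have hrun : ∀ z' : St, AW red YZ ⟨2, k, h, fl⟩ a z' → ¬ z'.Nonrun → ∃ g T, PtrStep h z' g ∧
      Big (z'.need + 1) T ∧ ∀ l ∈ T, AW red YZ ⟨2, k, g l, fl⟩ a (z'.step l) := by
    intro z' hw' hr
    obtain ⟨f, T, ht, hT, hh⟩ := hw'.jn_runB hr
    rcases ht with ⟨h1, _⟩ | ⟨_, _, g, hg, rfl⟩ | ⟨h1, _⟩
    · cases h1
    · exact ⟨g, T, hg, hT, hh⟩
    · cases h1
  by_cases hn : z.Nonrun
  · rcases hw.jn_non ha hn with ⟨_, _, hd⟩ | ⟨n, ann', _, ht, hh⟩ | ⟨n, ann', _, ht, hh⟩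
    · cases hd
    · rcases ht with ⟨h1, _⟩ | ⟨h1, _⟩ | ⟨_, h2, _⟩ | ⟨_, _, h3, _⟩ | ⟨h1, _⟩
      · cases h1
      · cases h1
      · cases h2
      · exact absurd h3 hat
      · cases h1
    · rcases ht with ⟨h1, _⟩ | ⟨h1, _⟩ | ⟨_, _, _, rfl⟩ | ⟨_, h2, _⟩ | ⟨h1, _⟩
      · cases h1
      · cases h1
      · obtain ⟨g, T, hg, hT, hh⟩ := hrun _ hh (not_nonrun_pick h0 n)
        exact ⟨_, g, T, Or.inr ⟨n, rfl⟩, hg, hT, hh⟩
      · cases h2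
      · cases h1
  · obtain ⟨g, T, hg, hT, hh⟩ := hrun _ hw hn
    exact ⟨_, g, T, Or.inl rfl, hg, hT, hh⟩

/-- followers with the automaton `XZ`, phases 1, 6 and 3; `hc`: the vertex is not at a cut which
ends the phase -/
theorem jn_xz {red : List ℕ → List ℕ → Prop} {p h k : ℕ} {fl : Bool} {x b : St}
    (hw : AW red XZ ⟨p, h, k, fl⟩ x b) (hp : p = 1 ∨ p = 6 ∨ p = 3) (hb : b.Nonrun)
    (hat : ¬ AT x h) (h0 : x.stk ≠ [])
    (hc : x.OpenTop → (p = 1 ∨ (p = 6 ∧ PIn x h)) → ¬ h < x.stk.length) :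
    JnF (fun h' s => AW red XZ ⟨p, h', k, fl⟩ s b) h x := by
  have hrun : ∀ x' : St, AW red XZ ⟨p, h, k, fl⟩ x' b → ¬ x'.Nonrun → ∃ g T, PtrStep h x' g ∧
      Big (x'.need + 1) T ∧ ∀ l ∈ T, AW red XZ ⟨p, g l, k, fl⟩ (x'.step l) b := by
    intro x' hw' hr
    obtain ⟨f, T, ht, hT, hh⟩ := hw'.jn_runA hr
    rcases ht with ⟨_, _, g, hg, rfl⟩ | ⟨_, h2, _⟩ | ⟨_, h2, _⟩ | ⟨h1, _⟩
    · exact ⟨g, T, hg, hT, hh⟩
    · cases h2
    · cases h2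
    · have h1' : p = 5 := h1
      omega
  by_cases hn : x.Nonrun
  · have hop : x.OpenTop := jn_open_of_nonrun hn h0
    rcases hw.jn_non hn hb with ⟨_, _, hd⟩ | ⟨n, ann', _, ht, hh⟩ | ⟨n, ann', _, ht, hh⟩
    · have h1' : p = 5 := hd
      omega
    · rcases ht with ⟨_, _, _, rfl⟩ | ⟨_, h2, _⟩ | ⟨h1, _⟩ | ⟨h1, _⟩ | ⟨h1, _⟩ | ⟨_, _, _, rfl⟩ |
        ⟨_, h2, _⟩ | ⟨h1, _⟩ | ⟨h1, _⟩ | ⟨h1, _⟩
      · obtain ⟨g, T, hg, hT, hh⟩ := hrun _ hh (not_nonrun_pick h0 n)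
        exact ⟨_, g, T, Or.inr ⟨n, rfl⟩, hg, hT, hh⟩
      · cases h2
      · have h1' : p = 2 := h1
        omega
      · have h1' : p = 2 := h1
        omega
      · have h1' : p = 2 := h1
        omega
      · obtain ⟨g, T, hg, hT, hh⟩ := hrun _ hh (not_nonrun_pick h0 n)
        exact ⟨_, g, T, Or.inr ⟨n, rfl⟩, hg, hT, hh⟩
      · cases h2
      · have h1' : p = 4 := h1
        omega
      · have h1' : p = 4 := h1
        omega
      · have h1' : p = 5 := h1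
        omega
    · rcases ht with ⟨_, h2, _⟩ | ⟨h1, _, h3, _⟩ | ⟨h1, _⟩ | ⟨h1, _⟩ | ⟨h1, _⟩ | ⟨_, h2, _⟩ |
        ⟨_, _, h3, _⟩ | ⟨h1, _⟩ | ⟨h1, _⟩ | ⟨h1, _⟩
      · cases h2
      · exact absurd h3 (hc hop h1)
      · have h1' : p = 2 := h1
        omega
      · have h1' : p = 2 := h1
        omega
      · have h1' : p = 2 := h1
        omega
      · cases h2
      · exact absurd h3 hat
      · have h1' : p = 4 := h1
        omega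
      · have h1' : p = 4 := h1
        omega
      · have h1' : p = 5 := h1
        omega
  · obtain ⟨g, T, hg, hT, hh⟩ := hrun _ hw hn
    exact ⟨_, g, T, Or.inl rfl, hg, hT, hh⟩

/-- followers on the board `xy` (automaton `XY1`), phase 2 -/
theorem jn_xy2 {red : List ℕ → List ℕ → Prop} {h k : ℕ} {fl : Bool} {x b : St}
    (hw : AW red XY1 ⟨2, h, k, fl⟩ x b) (hb : b.Nonrun)
    (hat : ¬ AT x h) (h0 : x.stk ≠ [])
    (hc : x.OpenTop → PIn x h → ¬ h < x.stk.length) :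
    JnF (fun h' s => AW red XY1 ⟨2, h', k, fl⟩ s b) h x := by
  have hrun : ∀ x' : St, AW red XY1 ⟨2, h, k, fl⟩ x' b → ¬ x'.Nonrun → ∃ g T, PtrStep h x' g ∧
      Big (x'.need + 1) T ∧ ∀ l ∈ T, AW red XY1 ⟨2, g l, k, fl⟩ (x'.step l) b := by
    intro x' hw' hr
    obtain ⟨f, T, ht, hT, hh⟩ := hw'.jn_runA hr
    rcases ht with ⟨h1, _⟩ | ⟨h1, _⟩ | ⟨_, _, g, hg, rfl⟩ | ⟨h1, _⟩ | ⟨h1, _⟩ | ⟨h1, _⟩ |
      ⟨h1, _⟩ | ⟨h1, _⟩
    · cases h1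
    · cases h1
    · exact ⟨g, T, hg, hT, hh⟩
    · cases h1
    · cases h1
    · cases h1
    · cases h1
    · cases h1
  by_cases hn : x.Nonrun
  · have hop : x.OpenTop := jn_open_of_nonrun hn h0
    rcases hw.jn_non hn hb with ⟨_, _, hd⟩ | ⟨n, ann', _, ht, hh⟩ | ⟨n, ann', _, ht, hh⟩
    · cases hd
    · rcases ht with ⟨h1, _⟩ | ⟨h1, _⟩ | ⟨h1, _⟩ | ⟨_, _, _, rfl⟩ | ⟨_, h2, _⟩ | ⟨h1, _⟩ |
        ⟨h1, _⟩ | ⟨_, h2, _⟩ | ⟨h1, _⟩ | ⟨h1, _⟩ | ⟨h1, _⟩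
      · cases h1
      · cases h1
      · cases h1
      · obtain ⟨g, T, hg, hT, hh⟩ := hrun _ hh (not_nonrun_pick h0 n)
        exact ⟨_, g, T, Or.inr ⟨n, rfl⟩, hg, hT, hh⟩
      · cases h2
      · cases h1
      · cases h1
      · cases h2
      · cases h1
      · cases h1
      · cases h1
    · rcases ht with ⟨h1, _⟩ | ⟨h1, _⟩ | ⟨h1, _⟩ | ⟨_, h2, _⟩ | ⟨_, _, h3, h4, _⟩ | ⟨h1, _⟩ |
        ⟨h1, _⟩ | ⟨_, _, h3, _⟩ | ⟨h1, _⟩ | ⟨h1, _⟩ | ⟨h1, _⟩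
      · cases h1
      · cases h1
      · cases h1
      · cases h2
      · exact absurd h4 (hc hop h3)
      · cases h1
      · cases h1
      · exact absurd h3 hat
      · cases h1
      · cases h1
      · cases h1
  · obtain ⟨g, T, hg, hT, hh⟩ := hrun _ hw hn
    exact ⟨_, g, T, Or.inl rfl, hg, hT, hh⟩

/-- `XZ`, phase 4: the second vertex can always be moved -/
theorem jn_solo4 {red : List ℕ → List ℕ → Prop} {i j : ℕ} {fl : Bool} {x z : St}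
    (hw : AW red XZ ⟨4, i, j, fl⟩ x z) (hx : x.Nonrun) (h0 : z.stk ≠ []) :
    ∃ z' T, (z' = z ∨ ∃ n, z' = z.pick n) ∧ Big (z'.need + 1) T ∧
      ∀ l ∈ T, AW red XZ ⟨4, i, j, fl⟩ x (z'.step l) := by
  have hrun : ∀ z' : St, AW red XZ ⟨4, i, j, fl⟩ x z' → ¬ z'.Nonrun → ∃ T,
      Big (z'.need + 1) T ∧ ∀ l ∈ T, AW red XZ ⟨4, i, j, fl⟩ x (z'.step l) := by
    intro z' hw' hr
    obtain ⟨f, T, ht, hT, hh⟩ := hw'.jn_runB hr
    rcases ht with ⟨_, h2, _⟩ | ⟨h1, _⟩ | ⟨_, _, rfl⟩ | ⟨_, h2, _⟩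
    · cases h2
    · cases h1
    · exact ⟨T, hT, hh⟩
    · cases h2
  by_cases hn : z.Nonrun
  · rcases hw.jn_non hx hn with ⟨_, _, hd⟩ | ⟨n, ann', _, ht, hh⟩ | ⟨n, ann', _, ht, hh⟩
    · cases hd
    · rcases ht with ⟨h1, _⟩ | ⟨_, h2, _⟩ | ⟨h1, _⟩ | ⟨h1, _⟩ | ⟨h1, _⟩ | ⟨h1, _⟩ |
        ⟨h1, _⟩ | ⟨_, h2, _⟩ | ⟨_, _, h3, _⟩ | ⟨h1, _⟩
      · rcases h1 with h1 | h1 <;> cases h1
      · cases h2
      · cases h1
      · cases h1
      · cases h1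
      · cases h1
      · cases h1
      · cases h2
      · exact absurd h3 h0
      · cases h1
    · rcases ht with ⟨_, h2, _⟩ | ⟨h1, _⟩ | ⟨h1, _⟩ | ⟨h1, _⟩ | ⟨h1, _⟩ | ⟨h1, _⟩ |
        ⟨h1, _⟩ | ⟨_, _, rfl⟩ | ⟨_, h2, _⟩ | ⟨h1, _⟩
      · cases h2
      · rcases h1 with h1 | ⟨h1, _⟩ <;> cases h1
      · cases h1
      · cases h1
      · cases h1
      · cases h1
      · cases h1
      · obtain ⟨T, hT, hh⟩ := hrun _ hh (not_nonrun_pick h0 n)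
        exact ⟨_, T, Or.inr ⟨n, rfl⟩, hT, hh⟩
      · cases h2
      · cases h1
  · obtain ⟨T, hT, hh⟩ := hrun _ hw hn
    exact ⟨_, T, Or.inl rfl, hT, hh⟩

/-- `XZ`, phase 3 at the target: the second vertex is picked -/
theorem jn_xz3_at {red : List ℕ → List ℕ → Prop} {h j : ℕ} {fl : Bool} {x z : St}
    (hw : AW red XZ ⟨3, h, j, fl⟩ x z) (hz : z.Nonrun) (hat : AT x h) :
    x.Nonrun ∧ ∃ n, AW red XZ ⟨4, 0, 0, false⟩ x (z.pick n) := by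
  have hx : x.Nonrun := by
    by_contra hr
    obtain ⟨f, T, ht, _, _⟩ := hw.jn_runA hr
    rcases ht with ⟨_, _, g, hg, _⟩ | ⟨_, h2, _⟩ | ⟨_, h2, _⟩ | ⟨h1, _⟩
    · exact jn_at_ptr hat hg
    · cases h2
    · cases h2
    · cases h1
  refine ⟨hx, ?_⟩
  rcases hw.jn_non hx hz with ⟨_, _, hd⟩ | ⟨n, ann', _, ht, hh⟩ | ⟨n, ann', _, ht, hh⟩
  · cases hd
  · rcases ht with ⟨h1, _⟩ | ⟨_, h2, _⟩ | ⟨h1, _⟩ | ⟨h1, _⟩ | ⟨h1, _⟩ | ⟨_, _, h3, _⟩ |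
      ⟨_, h2, _⟩ | ⟨_, h2, _⟩ | ⟨h1, _⟩ | ⟨h1, _⟩
    · rcases h1 with h1 | h1 <;> cases h1
    · cases h2
    · cases h1
    · cases h1
    · cases h1
    · exact (jn_at_nt hat h3).elim
    · cases h2
    · cases h2
    · cases h1
    · cases h1
  · rcases ht with ⟨_, h2, _⟩ | ⟨h1, _⟩ | ⟨h1, _⟩ | ⟨h1, _⟩ | ⟨h1, _⟩ | ⟨_, h2, _⟩ |
      ⟨_, _, _, rfl⟩ | ⟨h1, _⟩ | ⟨_, h2, _⟩ | ⟨h1, _⟩
    · cases h2
    · rcases h1 with h1 | ⟨h1, _⟩ <;> cases h1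
    · cases h1
    · cases h1
    · cases h1
    · cases h2
    · exact ⟨n, hh⟩
    · cases h1
    · cases h2
    · cases h1

/-- `YZ`, phase 1 at the target: the second vertex is picked -/
theorem jn_yz1_at {red : List ℕ → List ℕ → Prop} {h j : ℕ} {fl : Bool} {y z : St}
    (hw : AW red YZ ⟨1, h, j, fl⟩ y z) (hz : z.Nonrun) (hat : AT y h) :
    y.Nonrun ∧ ∃ n, AW red YZ ⟨2, 0, 1, false⟩ y (z.pick n) := by
  have hy : y.Nonrun := by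
    by_contra hr
    obtain ⟨f, T, ht, _, _⟩ := hw.jn_runA hr
    rcases ht with ⟨_, _, g, hg, _⟩ | ⟨_, h2, _⟩ | ⟨h1, _⟩
    · exact jn_at_ptr hat hg
    · cases h2
    · cases h1
  refine ⟨hy, ?_⟩
  rcases hw.jn_non hy hz with ⟨_, _, hd⟩ | ⟨n, ann', _, ht, hh⟩ | ⟨n, ann', _, ht, hh⟩
  · cases hd
  · rcases ht with ⟨_, _, h3, _⟩ | ⟨_, h2, _⟩ | ⟨h1, _⟩ | ⟨h1, _⟩ | ⟨h1, _⟩
    · exact (jn_at_nt hat h3).elim
    · cases h2
    · cases h1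
    · cases h1
    · cases h1
  · rcases ht with ⟨_, h2, _⟩ | ⟨_, _, _, _, rfl⟩ | ⟨h1, _⟩ | ⟨h1, _⟩ | ⟨h1, _⟩
    · cases h2
    · exact ⟨n, hh⟩
    · cases h1
    · cases h1
    · cases h1

/-- `YZ`, phase 2 at the target: the first vertex is picked -/
theorem jn_yz2_at {red : List ℕ → List ℕ → Prop} {h j : ℕ} {fl : Bool} {y z : St}
    (hw : AW red YZ ⟨2, j, h, fl⟩ y z) (hy : y.Nonrun) (hat : AT z h) :
    z.Nonrun ∧ ∃ n, AW red YZ ⟨3, 0, 0, false⟩ (y.pick n) z := by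
  have hz : z.Nonrun := by
    by_contra hr
    obtain ⟨f, T, ht, _, _⟩ := hw.jn_runB hr
    rcases ht with ⟨h1, _⟩ | ⟨_, _, g, hg, _⟩ | ⟨h1, _⟩
    · cases h1
    · exact jn_at_ptr hat hg
    · cases h1
  refine ⟨hz, ?_⟩
  rcases hw.jn_non hy hz with ⟨_, _, hd⟩ | ⟨n, ann', _, ht, hh⟩ | ⟨n, ann', _, ht, hh⟩
  · cases hd
  · rcases ht with ⟨h1, _⟩ | ⟨h1, _⟩ | ⟨_, h2, _⟩ | ⟨_, _, _, rfl⟩ | ⟨h1, _⟩
    · cases h1
    · cases h1
    · cases h2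
    · exact ⟨n, hh⟩
    · cases h1
  · rcases ht with ⟨h1, _⟩ | ⟨h1, _⟩ | ⟨_, _, h3, _⟩ | ⟨_, h2, _⟩ | ⟨h1, _⟩
    · cases h1
    · cases h1
    · exact (jn_at_nt hat h3).elim
    · cases h2
    · cases h1

end Pool.Agent.H90.Ord
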