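import Pool.Agent.H80.JN.Stuck

/-!
# Joint plays, types 1 and 2: the stages which both types have in common

The vertices are `x < y < z`, the boards `xy : (x1, y1)`, `xz : (x2, z1)`, `yz : (y2, z2)`.
-/

set_option autoImplicit false

namespace Pool.Agent.H90.Ord

theorem jn_start_nonrun : start.Nonrun := Or.inr ⟨rfl, [], Or.inr rfl⟩

theorem jn_start_ne : start.stk ≠ [] := by simp [start]

/-- the follower property for the vertex `x` on the board `xy` -/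
def JnFX (ε : Bool) (FX : ℕ → St → Prop) : Prop :=
  ∀ h x1 x2, FX h x1 → Ald ε x1 x2 h → ¬ AT x1 h → ¬ JnStuckI x2 h → JnF FX h x1

/-- stage A2: `x` moves to its first cut on the board `xz` -/
theorem jn_stA2 {red : List ℕ → List ℕ → Prop} {ε : Bool} {FX : ℕ → St → Prop}
    (hF : JnFX ε FX) {ann : Ann} {x2 b : St} (hw : AW red XZ ann x2 b) :
    ∀ x1, (ann.ph = 1 ∨ ann.ph = 6) → b = start → Ald ε x1 x2 ann.ha → FX ann.ha x1 →
      ∃ x1' x2' h n, FX h x1' ∧ Ald ε x1' x2' h ∧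
        AW red XZ ⟨2, h, 1, false⟩ x2' (start.pick n) := by
  induction hw with
  | @done ann a b ha hb h hd =>
      intro x1 hp _ _ _
      have h1 : ann.ph = 5 := hd
      omega
  | @pickA ann ann' a b n ha hb h0 ht h ih =>
      intro x1 hp hb' hal hf
      rcases ht with ⟨_, _, _, rfl⟩ | ⟨_, h2, _⟩ | ⟨h1, _⟩ | ⟨h1, _⟩ | ⟨_, h2, _⟩ |
        ⟨h1, _⟩ | ⟨h1, _⟩ | ⟨h1, _⟩ | ⟨h1, _⟩ | ⟨h1, _⟩
      · exact ih x1 hp hb' (hal.pick2 n) hf
      · cases h2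
      · omega
      · omega
      · cases h2
      · omega
      · omega
      · omega
      · omega
      · omega
  | @pickB ann ann' a b n ha hb h0 hr ht h ih =>
      intro x1 hp hb' hal hf
      subst hb'
      rcases ht with ⟨_, h2, _⟩ | ⟨_, _, _, _, rfl⟩ | ⟨_, h2, _⟩ | ⟨_, h2, _⟩ | ⟨h1, _⟩ |
        ⟨h1, _⟩ | ⟨h1, _⟩ | ⟨h1, _⟩ | ⟨h1, _⟩ | ⟨h1, _⟩
      · cases h2
      · exact ⟨x1, a, ann.ha, n, hf, hal, h⟩
      · cases h2
      · cases h2
      · omega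
      · omega
      · omega
      · omega
      · omega
      · omega
  | @stepA ann a b f T ha hb ht hT h ih =>
      intro x1 hp hb' hal hf
      have hw : AW red XZ ann a b := AW.stepA f T ha hb ht hT h
      rcases ht with ⟨_, _, g, hg, rfl⟩ | ⟨_, h2, _⟩ | ⟨_, h2, _⟩ | ⟨h1, _⟩
      · have hat : ¬ AT x1 ann.ha := fun h5 => jn_at_ptr (hal.at_iff.1 h5) hg
        have hst : ¬ JnStuckI a ann.ha := fun h5 => jn_stuckI hw (by omega) h5
        obtain ⟨l, hl, x1', hal', hf'⟩ := jn_step1 hal hg hT (hF _ _ _ hf hal hat hst)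
        exact ih l hl x1' hp hb' hal' hf'
      · cases h2
      · cases h2
      · omega
  | @stepB ann a b f T ha hb ht hT h ih =>
      intro x1 hp hb' hal hf
      subst hb'
      exact absurd jn_start_nonrun hb

/-- stage B: the plays before the last cut of `z` -/
theorem jn_stB {red : List ℕ → List ℕ → Prop} {ε : Bool} {FX : ℕ → St → Prop}
    (hF : JnFX ε FX) {y2 : St} (hy : y2.Nonrun) {ann : Ann} {x2 z1 : St}
    (hw : AW red XZ ann x2 z1) :
    ∀ x1 z2, ann.ph = 2 → Ald ε x1 x2 ann.ha → FX ann.ha x1 → Ald true z1 z2 ann.hb →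
      AW red YZ ⟨2, 0, ann.hb, false⟩ y2 z2 →
      ∃ x1' x2' z1' z2' h n, FX h x1' ∧ Ald ε x1' x2' h ∧ AW red XZ ⟨3, h, 0, false⟩ x2' z1' ∧
        z1'.Nonrun ∧ Par z1' z2' ∧ z2'.Nonrun ∧ AW red YZ ⟨3, 0, 0, false⟩ (y2.pick n) z2' := by
  induction hw with
  | @done ann a b ha hb h hd =>
      intro x1 z2 hp _ _ _ _
      have h1 : ann.ph = 5 := hd
      omega
  | @pickA ann ann' a b n ha hb h0 ht h ih =>
      intro x1 z2 hp hal hf haz hyz
      rcases ht with ⟨h1, _⟩ | ⟨_, h2, _⟩ | ⟨_, _, _, rfl⟩ | ⟨_, _, _, hat, rfl⟩ | ⟨_, h2, _⟩ |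
        ⟨h1, _⟩ | ⟨h1, _⟩ | ⟨h1, _⟩ | ⟨h1, _⟩ | ⟨h1, _⟩
      · omega
      · cases h2
      · exact ih x1 z2 hp (hal.pick2 n) hf haz hyz
      · obtain ⟨hz2, m, hyz'⟩ := jn_yz2_at hyz hy (haz.at_iff.1 hat)
        exact ⟨x1, a.pick n, b, z2, ann.ha, m, hf, hal.pick2 n, h, hb, haz.par, hz2, hyz'⟩
      · cases h2
      · omega
      · omega
      · omega
      · omega
      · omega
  | @pickB ann ann' a b n ha hb h0 hr ht h ih =>
      intro x1 z2 hp hal hf haz hyz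
      rcases ht with ⟨_, h2, _⟩ | ⟨h1, _⟩ | ⟨_, h2, _⟩ | ⟨_, h2, _⟩ | ⟨_, _, _, _, rfl⟩ |
        ⟨h1, _⟩ | ⟨h1, _⟩ | ⟨h1, _⟩ | ⟨h1, _⟩ | ⟨h1, _⟩
      · cases h2
      · omega
      · cases h2
      · cases h2
      · exact ih x1 z2 hp hal hf (haz.pick1 n) hyz
      · omega
      · omega
      · omega
      · omega
      · omega
  | @stepA ann a b f T ha hb ht hT h ih =>
      intro x1 z2 hp hal hf haz hyz
      have hw : AW red XZ ann a b := AW.stepA f T ha hb ht hT h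
      rcases ht with ⟨_, _, g, hg, rfl⟩ | ⟨_, h2, _⟩ | ⟨_, h2, _⟩ | ⟨h1, _⟩
      · have hat : ¬ AT x1 ann.ha := fun h5 => jn_at_ptr (hal.at_iff.1 h5) hg
        have hst : ¬ JnStuckI a ann.ha := fun h5 => jn_stuckI hw (by omega) h5
        obtain ⟨l, hl, x1', hal', hf'⟩ := jn_step1 hal hg hT (hF _ _ _ hf hal hat hst)
        exact ih l hl x1' z2 hp hal' hf' haz hyz
      · cases h2
      · cases h2
      · omega
  | @stepB ann a b f T ha hb ht hT h ih =>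
      intro x1 z2 hp hal hf haz hyz
      rcases ht with ⟨_, h2, _⟩ | ⟨_, _, g, hg, rfl⟩ | ⟨h1, _⟩ | ⟨h1, _⟩
      · cases h2
      · have hat : ¬ AT z2 ann.hb := fun h5 => jn_at_ptr (haz.at_iff.2 h5) hg
        obtain ⟨l, hl, z2', haz', hyz'⟩ := jn_step2 haz hg hT (jn_yz2 hyz hy hat haz.jn_ne2)
        exact ih l hl x1 z2' hp hal hf haz' hyz'
      · omega
      · omega

/-- stages A2 and B together: `x` is before its first cut on the board `xz`, `y` is at its last cut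
before `z` starts -/
theorem jn_stAB {red : List ℕ → List ℕ → Prop} {ε : Bool} {FX : ℕ → St → Prop}
    (hF : JnFX ε FX) {p h hq i j : ℕ} (hp : p = 1 ∨ p = 6) {x1 x2 y1 y2 : St}
    (hxz : AW red XZ ⟨p, h, i, false⟩ x2 start) (hal : Ald ε x1 x2 h) (hf : FX h x1)
    (hay : Ald true y1 y2 hq) (hat : AT y1 hq) (hyz : AW red YZ ⟨1, hq, j, false⟩ y2 start) :
    ∃ x1' x2' z1' z2' h' n, FX h' x1' ∧ Ald ε x1' x2' h' ∧ AW red XZ ⟨3, h', 0, false⟩ x2' z1' ∧
        z1'.Nonrun ∧ Par z1' z2' ∧ z2'.Nonrun ∧ AW red YZ ⟨3, 0, 0, false⟩ (y2.pick n) z2' := by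
  obtain ⟨x1', x2', h', n, hf', hal', hxz'⟩ := jn_stA2 hF hxz x1 hp rfl hal hf
  obtain ⟨hy2, m, hyz'⟩ := jn_yz1_at hyz jn_start_nonrun (hay.at_iff.1 hat)
  exact jn_stB hF hy2 hxz' x1' (start.pick m) rfl hal' hf'
    (((ald_start true).pick1 n).pick2 m) hyz'

/-- stage D: `z` completes -/
theorem jn_stD {red : List ℕ → List ℕ → Prop} {FY : St → St → Prop} {x1 x2 : St}
    (hwin : ∀ {y1 y2 : St}, FY y1 y2 → Win red x1 y1)
    (hpar : ∀ {y1 y2 : St}, FY y1 y2 → Par y1 y2)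
    (hpick : ∀ {y1 y2 : St} (n : ℕ), FY y1 y2 → FY y1 (y2.pick n))
    (hstep : ∀ {y1 y2 : St}, FY y1 y2 → ¬ y2.Nonrun → HasMark y2 → ∀ {T : Set (List ℕ)},
      Big (y2.need + 1) T → ∃ l ∈ T, ∃ y1', FY y1' (y2.step l))
    (px : Par x1 x2) (hx : x2.Nonrun) {ann : Ann} {y2 z2 : St} (hw : AW red YZ ann y2 z2) :
    ∀ y1 z1, ann.ph = 3 → FY y1 y2 → Par z1 z2 → AW red XZ ⟨4, 0, 0, false⟩ x2 z1 →
      Tri red := by
  induction hw with
  | @done ann a b ha hb h hd =>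
      intro y1 z1 _ hf pz hxz
      exact final_z (hwin hf) hxz.win (Win.done ha hb h) px (hpar hf) pz (pz.nil_iff.2 hb)
  | @pickA ann ann' a b n ha hb h0 ht h ih =>
      intro y1 z1 hp hf pz hxz
      rcases ht with ⟨h1, _⟩ | ⟨h1, _⟩ | ⟨h1, _⟩ | ⟨h1, _⟩ | ⟨_, _, rfl⟩
      · omega
      · omega
      · omega
      · omega
      · exact ih y1 z1 hp (hpick n hf) pz hxz
  | @pickB ann ann' a b n ha hb h0 hr ht h ih =>
      intro y1 z1 hp hf pz hxz
      rcases ht with ⟨h1, _⟩ | ⟨h1, _⟩ | ⟨h1, _⟩ | ⟨h1, _⟩ | ⟨_, _, rfl⟩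
      · omega
      · omega
      · omega
      · omega
      · exact ih y1 z1 hp hf (pz.pick2 n) hxz
  | @stepA ann a b f T ha hb ht hT h ih =>
      intro y1 z1 hp hf pz hxz
      have hw : AW red YZ ann a b := AW.stepA f T ha hb ht hT h
      by_cases hz : b.stk = []
      · exact final_z (hwin hf) hxz.win hw.win px (hpar hf) pz (pz.nil_iff.2 hz)
      · rcases ht with ⟨h1, _⟩ | ⟨h1, _⟩ | ⟨_, _, rfl⟩
        · omega
        · omega
        · obtain ⟨l, hl, y1', hf'⟩ := hstep hf ha (jn_yz3_mark hw hp hb hz) hT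
          exact ih l hl y1' z1 hp hf' pz hxz
  | @stepB ann a b f T ha hb ht hT h ih =>
      intro y1 z1 hp hf pz hxz
      rcases ht with ⟨h1, _⟩ | ⟨h1, _⟩ | ⟨_, _, rfl⟩
      · omega
      · omega
      · obtain ⟨z1', T', hz1', hT', hh⟩ :=
          jn_solo4 hxz hx (fun h0 => ne_nil_of_run hb (pz.nil_iff.1 h0))
        obtain ⟨l1, hl1, l2, hl2, he, _⟩ := big_common 0 hT hT'
        exact ih l1 hl1 y1 _ hp hf (((pz.symm.of_pick hz1').step he).symm) (hh l2 hl2)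

end Pool.Agent.H90.Ord
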