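import Pool.Agent.H80.JN.Gen

/-!
# Joint plays, types 1 and 2: positions from which the phase cannot end

`JnStuckI`: the pointed entry is an inner entry with mark `U` and nothing above it is marked: then there is no cut
before the target, so the phases 1, 6, 2 of `XZ` never end.  `PIn` in phase 1 of `XY1`: the phase never ends.
`JnStuckO`: the pointed entry is an outer entry whose mark is not split at outer levels, and nothing above it is
marked: there is no cut before the pointer is inner.
-/

set_option autoImplicit false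

namespace Pool.Agent.H90.Ord

theorem jn_getD {l : List ℕ} {n i : ℕ} (hf : Fresh 0 l) (hl : l.length = n + 1) (hi : i < n) :
    l.getD i 0 + 3 ≤ l.getLastD 0 := by
  have hs := hf.sorted
  rw [List.pairwise_iff_getElem] at hs
  have h1 := hs i n (by omega) (by omega) hi
  have h2 : l.getD i 0 = l[i]'(by omega) := List.getD_eq_getElem _ _ (by omega)
  have h3 : l.getLastD 0 = l[n]'(by omega) := by
    have hne : l ≠ [] := by
      rintro rfl
      cases hl
    rw [List.getLastD_eq_getLast?, List.getLast?_eq_getLast_of_ne_nil hne, Option.getD_some,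
      List.getLast_eq_getElem]
    congr 1
    omega
  rw [h2, h3]
  exact h1

theorem jn_range_split {α : Type} (f : ℕ → α) {c N : ℕ} (hc : c < N) :
    (List.range N).map f = (List.range c).map f ++
      f c :: (List.range (N - c - 1)).map (fun x => f (c + 1 + x)) := by
  have h1 : N = (c + 1) + (N - c - 1) := by omega
  conv_lhs => rw [h1, List.range_add, List.map_append, List.range_succ, List.map_append]
  rw [List.append_assoc, List.map_map]
  rfl

theorem jn_one {lv' : Lev} {m' : Mark} {c N : ℕ} (hc : c < N) :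
    ∃ A B, (List.range N).map (fun i => (lv', markAt [c] [m'] i)) = A ++ (lv', m') :: B ∧
      B.length = N - c - 1 ∧ ∀ e ∈ A, e.2 = Mark.none := by
  refine ⟨(List.range c).map (fun i => (lv', markAt [c] [m'] i)),
    (List.range (N - c - 1)).map (fun x => (lv', markAt [c] [m'] (c + 1 + x))), ?_, ?_, ?_⟩
  · rw [jn_range_split _ hc, markAt_cons, if_pos rfl]
  · rw [List.length_map, List.length_range]
  · intro e he
    obtain ⟨i, hi, rfl⟩ := List.mem_map.1 he
    rw [List.mem_range] at hi
    show markAt [c] [m'] i = _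
    rw [markAt_cons, if_neg (by omega), markAt_nil_left]

/-- a single mark goes to a single child -/
theorem jn_single_child {s : St} {lv lv' : Lev} {m m' : Mark} {t : List (Lev × Mark)}
    (hs : s.stk = (lv, m) :: t)
    (hl : (∃ k, lv = .inn (k + 1) ∧ lv' = .inn k) ∨ (∃ k, lv = .out (k + 1) ∧ lv' = .out k))
    (hm : ∀ r, chM lv m r = [m']) {i : ℕ} (hi : i < s.need) {l : List ℕ} (hf : Fresh 0 l)
    (hn : l.length = s.need + 1) :
    ∃ A B, (s.step l).stk = A ++ (lv', m') :: B ∧
      B.length + 1 = t.length + (l.getLastD 0 - l.getD i 0) ∧ ∀ e ∈ A, e.2 = Mark.none := by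
  have hneed : s.need = 1 := by
    rw [need_cons hs, need_many hl, hm]
    rfl
  rw [hneed] at hi hn
  obtain rfl : i = 0 := by omega
  have hlt := jn_getD hf hn (by omega : 0 < 1)
  obtain ⟨c, N, rfl⟩ : ∃ c N, l = [c, N] := by
    rcases l with _ | ⟨c, _ | ⟨N, _ | ⟨x, l⟩⟩⟩
    · cases hn
    · cases hn
    · exact ⟨c, N, rfl⟩
    · simp at hn
  have hcN : c + 3 ≤ N := hlt
  obtain ⟨A, B, h1, h2, h3⟩ := jn_one (lv' := lv') (m' := m') (by omega : c < N)
  refine ⟨A, B ++ t, ?_, ?_, h3⟩
  · rw [step_stk hs]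
    have hk : kids lv m s.reg [c] N = (List.range N).map (fun i => (lv', markAt [c] [m'] i)) := by
      rcases hl with ⟨k, rfl, rfl⟩ | ⟨k, rfl, rfl⟩
      · show (List.range N).map (fun i => (Lev.inn k, markAt [c] (chM _ m s.reg) i)) = _
        rw [hm]
      · show (List.range N).map (fun i => (Lev.out k, markAt [c] (chM _ m s.reg) i)) = _
        rw [hm]
    show kids lv m s.reg [c] N ++ t = _
    rw [hk, h1, List.append_assoc, List.cons_append]
  · show (B ++ t).length + 1 = t.length + (N - c)
    rw [List.length_append, h2]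
    omega

/-- the pointed entry is inner with mark `U`, nothing above it is marked -/
def JnStuckI (s : St) (h : ℕ) : Prop :=
  ∃ A l B, s.stk = A ++ (Lev.inn l, Mark.U) :: B ∧ B.length + 1 = h ∧ ∀ e ∈ A, e.2 = Mark.none

theorem jn_top_unmarked {s : St} {e : Lev × Mark} {t : List (Lev × Mark)} (hs : s.stk = e :: t)
    (he : e.2 = .none) (ho : s.OpenTop) : False := by
  obtain ⟨u, h | h⟩ := ho
  · rw [hs, List.cons.injEq] at h
    rw [h.1] at he
    cases he
  · rw [hs, List.cons.injEq] at h
    rw [h.1] at he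
    cases he

theorem jn_stuckI_open {s : St} {h : ℕ} (hs : JnStuckI s h) (ho : s.OpenTop) : AT s h := by
  obtain ⟨A, l, B, h1, h2, h3⟩ := hs
  rcases A with _ | ⟨e, A⟩
  · rw [List.nil_append] at h1
    obtain ⟨u, h4 | h4⟩ := ho
    · rw [h1, List.cons.injEq, Prod.mk.injEq] at h4
      refine ⟨?_, B, ?_⟩
      · rw [h1, List.length_cons, h2]
      · rw [h1, h4.1.1]
    · rw [h1, List.cons.injEq, Prod.mk.injEq] at h4
      cases h4.1.1
  · exact (jn_top_unmarked h1 (h3 e List.mem_cons_self) ho).elim

theorem jn_stuckI_step {s : St} {h : ℕ} {g : List ℕ → ℕ} (hs : JnStuckI s h) (hg : PtrStep h s g)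
    {l : List ℕ} (hf : Fresh 0 l) (hn : l.length = s.need + 1) : JnStuckI (s.step l) (g l) := by
  obtain ⟨A, j, B, h1, h2, h3⟩ := hs
  rcases A with _ | ⟨e, A⟩
  · rw [List.nil_append] at h1
    cases hg with
    | zero => cases h2
    | keep h0 h4 =>
        rw [h1, List.length_cons] at h4
        omega
    | single hs' hl =>
        rw [h1, List.cons.injEq, Prod.mk.injEq] at hs'
        rcases hl with rfl | rfl
        · cases hs'.1.1
        · cases hs'.1.1
    | child k i hs' hl hi =>
        rw [h1, List.cons.injEq, Prod.mk.injEq] at hs'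
        obtain ⟨⟨e1, e2⟩, e3⟩ := hs'
        rcases hl with rfl | rfl
        · obtain rfl : j = k + 1 := by injection e1
          obtain ⟨A', B', h4, h5, h6⟩ := jn_single_child h1 (Or.inl ⟨k, rfl, rfl⟩)
            (fun r => chM_U_inn) hi hf hn
          refine ⟨A', k, B', h4, ?_, h6⟩
          rw [h5, e3]
        · cases e1
  · have hlt : h < s.stk.length := by
      rw [h1, List.length_append, List.length_cons, List.length_cons]
      omega
    have hgl : g l = h := by
      cases hg with
      | zero => rfl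
      | keep h0 h4 => rfl
      | single hs' hl => exact absurd hlt (lt_irrefl _)
      | child k i hs' hl hi => exact absurd hlt (lt_irrefl _)
    obtain ⟨lv, m⟩ := e
    have hm : m = .none := h3 (lv, m) List.mem_cons_self
    subst hm
    rw [List.cons_append] at h1
    refine ⟨kids lv .none s.reg l.dropLast (l.getLastD 0) ++ A, j, B, ?_, ?_, ?_⟩
    · rw [step_stk h1, List.append_assoc]
    · rw [hgl, h2]
    · intro e he
      rcases List.mem_append.1 he with he | he
      · exact kids_unmarked _ _ _ _ e he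
      · exact h3 e (List.mem_cons_of_mem _ he)

theorem jn_fresh_mem {n : ℕ} {T : Set (List ℕ)} (hT : Big (n + 1) T) :
    ∃ l ∈ T, Fresh 0 l ∧ l.length = n + 1 := by
  obtain ⟨l, hl, _⟩ := big_nonempty (big_inter hT (big_fresh (n + 1) 0))
  exact ⟨l, hl.1, hl.2.2, hl.2.1⟩

/-- `XZ`, phases 1, 6, 2: an inner block with nothing marked above -/
theorem jn_stuckI {red : List ℕ → List ℕ → Prop} {ann : Ann} {a b : St} (hw : AW red XZ ann a b)
    (hp : ann.ph = 1 ∨ ann.ph = 6 ∨ ann.ph = 2) (hs : JnStuckI a ann.ha) : False := by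
  induction hw with
  | @done ann a b ha hb h hd =>
      have h1 : ann.ph = 5 := hd
      omega
  | @pickA ann ann' a b n ha hb h0 ht h ih =>
      have hat := jn_stuckI_open hs (jn_open_of_nonrun ha h0)
      rcases ht with ⟨_, _, h3, _⟩ | ⟨_, h2, _⟩ | ⟨_, _, h3, _⟩ | ⟨_, _, h3, _⟩ | ⟨_, h2, _⟩ |
        ⟨h1, _⟩ | ⟨h1, _⟩ | ⟨h1, _⟩ | ⟨h1, _⟩ | ⟨h1, _⟩
      · exact jn_at_nt hat h3
      · cases h2
      · exact jn_at_nt hat h3
      · exact jn_at_lt hat h3
      · cases h2
      · omega
      · omega
      · omega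
      · omega
      · omega
  | @pickB ann ann' a b n ha hb h0 hr ht h ih =>
      have hne : a.stk ≠ [] := by
        obtain ⟨A, l, B, h1, _⟩ := hs
        rw [h1]
        simp
      have hat := jn_stuckI_open hs (jn_open_of_nonrun ha hne)
      rcases ht with ⟨_, h2, _⟩ | ⟨_, _, h3, _⟩ | ⟨_, h2, _⟩ | ⟨_, h2, _⟩ | ⟨_, _, _, h3, _⟩ |
        ⟨h1, _⟩ | ⟨h1, _⟩ | ⟨h1, _⟩ | ⟨h1, _⟩ | ⟨h1, _⟩
      · cases h2
      · exact jn_at_lt hat h3
      · cases h2
      · cases h2
      · exact jn_at_lt hat h3
      · omega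
      · omega
      · omega
      · omega
      · omega
  | @stepA ann a b f T ha hb ht hT h ih =>
      obtain ⟨l, hl, hf, hn⟩ := jn_fresh_mem hT
      rcases ht with ⟨_, _, g, hg, rfl⟩ | ⟨_, h2, _⟩ | ⟨_, h2, _⟩ | ⟨h1, _⟩
      · exact ih l hl hp (jn_stuckI_step hs hg hf hn)
      · cases h2
      · cases h2
      · omega
  | @stepB ann a b f T ha hb ht hT h ih =>
      obtain ⟨l, hl, hf, hn⟩ := jn_fresh_mem hT
      rcases ht with ⟨_, h2, _⟩ | ⟨_, _, g, hg, rfl⟩ | ⟨h1, _⟩ | ⟨h1, _⟩
      · cases h2
      · exact ih l hl hp hs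
      · omega
      · omega

/-- an inner pointer stays inner -/
theorem jn_pin_step {s : St} {h : ℕ} {g : List ℕ → ℕ} (hs : PIn s h) (hg : PtrStep h s g)
    {l : List ℕ} (hf : Fresh 0 l) (hn : l.length = s.need + 1) : PIn (s.step l) (g l) := by
  obtain ⟨e, ⟨A, B, h1, h2⟩, h3⟩ := hs
  cases hg with
  | zero => cases h2
  | keep h0 h4 =>
      rcases A with _ | ⟨⟨lv, m⟩, A⟩
      · rw [h1, List.nil_append, List.length_cons] at h4
        omega
      · rw [List.cons_append] at h1
        refine ⟨e, ⟨kids lv m s.reg l.dropLast (l.getLastD 0) ++ A, B, ?_, h2⟩, h3⟩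
        rw [step_stk h1, List.append_assoc]
  | @single s lv m t hs' hl =>
      have hA : A = [] := by
        rw [h1, List.length_append, List.length_cons] at h2
        exact List.length_eq_zero_iff.1 (by omega)
      subst hA
      rw [h1, List.nil_append, List.cons.injEq] at hs'
      rw [hs'.1] at h3
      rcases hl with rfl | rfl
      · exact absurd h3 id
      · exact absurd h3 id
  | @child s lv m t k i hs' hl hi =>
      have hA : A = [] := by
        rw [h1, List.length_append, List.length_cons] at h2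
        exact List.length_eq_zero_iff.1 (by omega)
      subst hA
      have hs2 := hs'
      rw [h1, List.nil_append, List.cons.injEq] at hs'
      rw [hs'.1] at h3
      rcases hl with rfl | rfl
      · have hlt := jn_getD hf hn hi
        have hk : (s.step l).stk = (List.range (l.getLastD 0)).map
            (fun i => (Lev.inn k, markAt l.dropLast (chM (.inn (k + 1)) m s.reg) i)) ++ t := by
          rw [step_stk hs2]
          rfl
        rw [jn_range_split _ (by omega : l.getD i 0 < l.getLastD 0), List.append_assoc,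
          List.cons_append] at hk
        refine ⟨_, ⟨_, _, hk, ?_⟩, trivial⟩
        show _ = t.length + (l.getLastD 0 - l.getD i 0)
        rw [List.length_append, List.length_map, List.length_range]
        omega
      · exact absurd h3 id

theorem jn_entry_unique {s : List (Lev × Mark)} {h : ℕ} {e e' : Lev × Mark} (H : EntryAt s h e)
    (H' : EntryAt s h e') : e = e' := by
  obtain ⟨A, B, hs, hB⟩ := H
  obtain ⟨A', B', hs', hB'⟩ := H'
  have h1 : A ++ e :: B = A' ++ e' :: B' := by rw [← hs, ← hs']
  have h2 := List.append_inj' h1 (by rw [List.length_cons, List.length_cons, hB, hB'])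
  exact (List.cons.inj h2.2).1

theorem jn_pin_pout {s : St} {h : ℕ} (h1 : PIn s h) (h2 : POut s h) : False := by
  obtain ⟨e, he, hi⟩ := h1
  obtain ⟨e', he', ho⟩ := h2
  rw [jn_entry_unique he he'] at hi
  exact ho hi

/-- `XY1`, phase 1: the pointer is never inner -/
theorem jn_pin {red : List ℕ → List ℕ → Prop} {ann : Ann} {a b : St} (hw : AW red XY1 ann a b)
    (hp : ann.ph = 1) (hs : PIn a ann.ha) : False := by
  induction hw with
  | @done ann a b ha hb h hd =>
      have h1 : ann.ph = 5 := hd
      omega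
  | @pickA ann ann' a b n ha hb h0 ht h ih =>
      rcases ht with ⟨_, _, _, rfl⟩ | ⟨_, _, _, h4, _⟩ | ⟨_, h2, _⟩ | ⟨h1, _⟩ | ⟨h1, _⟩ | ⟨h1, _⟩ |
        ⟨h1, _⟩ | ⟨h1, _⟩ | ⟨h1, _⟩ | ⟨h1, _⟩ | ⟨h1, _⟩
      · exact ih hp hs
      · exact jn_pin_pout hs h4
      · cases h2
      · omega
      · omega
      · omega
      · omega
      · omega
      · omega
      · omega
      · omega
  | @pickB ann ann' a b n ha hb h0 hr ht h ih =>
      rcases ht with ⟨_, h2, _⟩ | ⟨_, h2, _⟩ | ⟨_, _, _, rfl⟩ | ⟨h1, _⟩ | ⟨h1, _⟩ | ⟨h1, _⟩ |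
        ⟨h1, _⟩ | ⟨h1, _⟩ | ⟨h1, _⟩ | ⟨h1, _⟩ | ⟨h1, _⟩
      · cases h2
      · cases h2
      · exact ih hp hs
      · omega
      · omega
      · omega
      · omega
      · omega
      · omega
      · omega
      · omega
  | @stepA ann a b f T ha hb ht hT h ih =>
      obtain ⟨l, hl, hf, hn⟩ := jn_fresh_mem hT
      rcases ht with ⟨_, _, g, hg, rfl⟩ | ⟨_, h2, _⟩ | ⟨h1, _⟩ | ⟨h1, _⟩ | ⟨h1, _⟩ | ⟨h1, _⟩ |
        ⟨h1, _⟩ | ⟨h1, _⟩
      · exact ih l hl hp (jn_pin_step hs hg hf hn)
      · cases h2
      · omega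
      · omega
      · omega
      · omega
      · omega
      · omega
  | @stepB ann a b f T ha hb ht hT h ih =>
      obtain ⟨l, hl, hf, hn⟩ := jn_fresh_mem hT
      rcases ht with ⟨_, h2, _⟩ | ⟨_, _, g, hg, rfl⟩ | ⟨h1, _⟩ | ⟨h1, _⟩ | ⟨h1, _⟩ | ⟨h1, _⟩ |
        ⟨h1, _⟩ | ⟨h1, _⟩
      · cases h2
      · exact ih l hl hp hs
      · omega
      · omega
      · omega
      · omega
      · omega
      · omega

/-- the pointed entry is outer and its mark is not split at outer levels, nothing above it is marked -/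
def JnStuckO (s : St) (h : ℕ) : Prop :=
  ∃ A k m B, s.stk = A ++ (Lev.out k, m) :: B ∧ B.length + 1 = h ∧ PassO m ∧
    ∀ e ∈ A, e.2 = Mark.none

theorem jn_stuckO_open {s : St} {h : ℕ} (hs : JnStuckO s h) (ho : s.OpenTop) : False := by
  obtain ⟨A, k, m, B, h1, h2, _, h3⟩ := hs
  rcases A with _ | ⟨e, A⟩
  · rw [List.nil_append] at h1
    obtain ⟨u, h4 | h4⟩ := ho
    · rw [h1, List.cons.injEq, Prod.mk.injEq] at h4
      cases h4.1.1
    · rw [h1, List.cons.injEq, Prod.mk.injEq] at h4
      cases h4.1.1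
  · exact (jn_top_unmarked h1 (h3 e List.mem_cons_self) ho).elim

theorem jn_stuckO_nonrun {s : St} {h : ℕ} (hs : JnStuckO s h) (hn : s.Nonrun) : False := by
  rcases hn with h0 | ⟨_, ho⟩
  · obtain ⟨A, k, m, B, h1, _⟩ := hs
    rw [h1] at h0
    simp at h0
  · exact jn_stuckO_open hs ho

theorem jn_stuckO_step {s : St} {h : ℕ} {g : List ℕ → ℕ} (hs : JnStuckO s h) (hg : PtrStep h s g)
    {l : List ℕ} (hf : Fresh 0 l) (hn : l.length = s.need + 1) :
    JnStuckO (s.step l) (g l) ∨ PIn (s.step l) (g l) := by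
  obtain ⟨A, j, m, B, h1, h2, hm, h3⟩ := hs
  rcases A with _ | ⟨e, A⟩
  · rw [List.nil_append] at h1
    cases hg with
    | zero => cases h2
    | keep h0 h4 =>
        rw [h1, List.length_cons] at h4
        omega
    | single hs' hl =>
        rw [h1, List.cons.injEq, Prod.mk.injEq] at hs'
        rcases hl with rfl | rfl
        · obtain rfl : j = 0 := by injection hs'.1.1
          right
          have hlen : s.stk.length = B.length + 1 := by rw [h1, List.length_cons]
          rcases hm with rfl | ⟨x, rfl⟩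
          · refine ⟨(.inn (l.getLastD 0), .U), ⟨[], B, ?_, ?_⟩, trivial⟩
            · rw [step_stk h1]
              rfl
            · rw [hlen]
          · refine ⟨(.inn (l.getLastD 0), mkE false l.dropLast.reverse), ⟨[], B, ?_, ?_⟩, trivial⟩
            · rw [step_stk h1]
              rfl
            · rw [hlen]
        · cases hs'.1.1
    | child k i hs' hl hi =>
        rw [h1, List.cons.injEq, Prod.mk.injEq] at hs'
        obtain ⟨⟨e1, e2⟩, e3⟩ := hs'
        rcases hl with rfl | rfl
        · cases e1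
        · obtain rfl : j = k + 1 := by injection e1
          left
          obtain ⟨A', B', h4, h5, h6⟩ := jn_single_child h1 (Or.inr ⟨k, rfl, rfl⟩)
            (fun r => chM_pass_out hm) hi hf hn
          refine ⟨A', k, m, B', h4, ?_, hm, h6⟩
          rw [h5, e3]
  · have hlt : h < s.stk.length := by
      rw [h1, List.length_append, List.length_cons, List.length_cons]
      omega
    have hgl : g l = h := by
      cases hg with
      | zero => rfl
      | keep h0 h4 => rfl
      | single hs' hl => exact absurd hlt (lt_irrefl _)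
      | child k i hs' hl hi => exact absurd hlt (lt_irrefl _)
    obtain ⟨lv, m'⟩ := e
    have hm' : m' = .none := h3 (lv, m') List.mem_cons_self
    subst hm'
    rw [List.cons_append] at h1
    left
    refine ⟨kids lv .none s.reg l.dropLast (l.getLastD 0) ++ A, j, m, B, ?_, ?_, hm, ?_⟩
    · rw [step_stk h1, List.append_assoc]
    · rw [hgl, h2]
    · intro e he
      rcases List.mem_append.1 he with he | he
      · exact kids_unmarked _ _ _ _ e he
      · exact h3 e (List.mem_cons_of_mem _ he)

/-- `XY1`, phase 1: an outer block which is not split, with nothing marked above -/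
theorem jn_stuckO {red : List ℕ → List ℕ → Prop} {ann : Ann} {a b : St} (hw : AW red XY1 ann a b)
    (hp : ann.ph = 1) (hs : JnStuckO a ann.ha) : False := by
  induction hw with
  | @done ann a b ha hb h hd =>
      have h1 : ann.ph = 5 := hd
      omega
  | pickA n ha hb h0 ht h ih => exact jn_stuckO_nonrun hs ha
  | pickB n ha hb h0 hr ht h ih => exact jn_stuckO_nonrun hs ha
  | @stepA ann a b f T ha hb ht hT h ih =>
      obtain ⟨l, hl, hf, hn⟩ := jn_fresh_mem hT
      rcases ht with ⟨_, _, g, hg, rfl⟩ | ⟨_, h2, _⟩ | ⟨h1, _⟩ | ⟨h1, _⟩ | ⟨h1, _⟩ | ⟨h1, _⟩ |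
        ⟨h1, _⟩ | ⟨h1, _⟩
      · rcases jn_stuckO_step hs hg hf hn with h5 | h5
        · exact ih l hl hp h5
        · exact jn_pin (h l hl) hp h5
      · cases h2
      · omega
      · omega
      · omega
      · omega
      · omega
      · omega
  | stepB f T ha hb ht hT h ih => exact jn_stuckO_nonrun hs ha

/-- `YZ`, phase 3: as long as the second vertex is not complete, the first one has a mark -/
theorem jn_yz3_mark {red : List ℕ → List ℕ → Prop} {ann : Ann} {a b : St} (hw : AW red YZ ann a b)
    (hp : ann.ph = 3) (hb : b.Nonrun) (hb0 : b.stk ≠ []) : HasMark a := by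
  by_contra hm
  induction hw with
  | @done ann a b ha hb' h hd => exact hb0 hb'
  | @pickA ann ann' a b n ha hb h0 ht h ih => exact hm (nonrun_hasMark ha h0)
  | @pickB ann ann' a b n ha hb h0 hr ht h ih =>
      have ha0 : a.stk = [] := by
        by_contra h0'
        exact hm (nonrun_hasMark ha h0')
      rcases ht with ⟨h1, _⟩ | ⟨h1, _⟩ | ⟨h1, _⟩ | ⟨h1, _⟩ | ⟨_, h2, _⟩
      · omega
      · omega
      · omega
      · omega
      · exact hb0 (h2 ha0)
  | @stepA ann a b f T ha hb' ht hT h ih =>
      obtain ⟨l, hl, hf, hn⟩ := jn_fresh_mem hT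
      rcases ht with ⟨h1, _⟩ | ⟨h1, _⟩ | ⟨_, _, rfl⟩
      · omega
      · omega
      · exact ih l hl hp hb hb0 (fun h5 => hm (hasMark_of_step h5))
  | @stepB ann a b f T ha hb' ht hT h ih => exact hb' hb

end Pool.Agent.H90.Ord
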