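import Pool.Agent.H80.JN.Stage

/-!
# Joint plays, type 2: the segments of `x` in the life of `y` and of `z` are inner

`jn_ald_stuck1`, `jn_ald_stuck2`: if the board with the low inner host levels is open above the inner pointed
entry, then the other board has nothing marked above the pointed entry.
-/

set_option autoImplicit false

namespace Pool.Agent.H90.Ord

theorem jn_entry1 {A : List DE} {p : DE} {B : List DE} :
    EntryAt (p1 (A ++ p :: B)) (B.length + 1) (p.1, p.2.1) := by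
  refine ⟨p1 A, p1 B, ?_, ?_⟩
  · rw [p1_append]
    rfl
  · rw [p1_length]

theorem jn_entry2 {A : List DE} {p : DE} {B : List DE} :
    EntryAt (p2 (A ++ p :: B)) (B.length + 1) (p.1, p.2.2) := by
  refine ⟨p2 A, p2 B, ?_, ?_⟩
  · rw [p2_append]
    rfl
  · rw [p2_length]

/-- an open state with a pointer below the top: the double stack -/
theorem jn_ald_open {ε : Bool} {s t : St} {h : ℕ} (hal : Ald ε s t h) (hl : h < s.stk.length) :
    ∃ κ γ e A p B, s.stk = p1 (e :: A ++ p :: B) ∧ t.stk = p2 (e :: A ++ p :: B) ∧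
      B.length + 1 = h ∧ Al ε κ γ (e :: A) p B := by
  obtain ⟨_, ⟨h2, h3, h4⟩ | ⟨κ, γ, A, p, B, h2, h3, h4, h5⟩⟩ := hal
  · rw [h2, h4] at hl
    exact absurd hl (lt_irrefl _)
  · rcases A with _ | ⟨e, A⟩
    · rw [h2, List.nil_append, p1_length, List.length_cons] at hl
      omega
    · exact ⟨κ, γ, e, A, p, B, h2, h3, h4, h5⟩

theorem jn_open_mark {s : St} {lv : Lev} {m : Mark} {t : List (Lev × Mark)}
    (hs : s.stk = (lv, m) :: t) (ho : s.OpenTop) : m ≠ .none := by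
  intro hm
  exact jn_top_unmarked hs hm ho

theorem jn_inner {l : Lev} (h : l.IsInn) : ∃ k, l = .inn k := by
  rcases l with k | k | _
  · exact ⟨k, rfl⟩
  · exact absurd h id
  · exact absurd h id

theorem Par.jn_length {s t : St} (h : Par s t) : s.stk.length = t.stk.length := by
  have := congrArg List.length h.2
  rwa [List.length_map, List.length_map] at this

/-- mode `true`: board 1 is open above the inner pointed entry -/
theorem jn_ald_stuck1 {s t : St} {h : ℕ} (hal : Ald true s t h) (ho : s.OpenTop) (hp : PIn s h)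
    (hl : h < s.stk.length) : JnStuckI t h := by
  obtain ⟨κ, γ, e, A, p, B, h2, h3, h4, h5⟩ := jn_ald_open hal hl
  obtain ⟨q, hq, hi⟩ := hp
  have hq' : q = (p.1, p.2.1) := by
    refine jn_entry_unique hq ?_
    rw [h2, ← h4]
    exact jn_entry1
  obtain ⟨k, hk⟩ := jn_inner (l := p.1) (by rw [hq'] at hi; exact hi)
  have he : e.2.1 ≠ .none := jn_open_mark (s := s) (lv := e.1) (t := p1 (A ++ p :: B)) h2 ho
  have hγ : k < γ := by
    by_contra hc
    exact he ((h5.hA e List.mem_cons_self).2.2.1 k hk (by omega))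
  obtain ⟨lv, m1, m2⟩ := p
  obtain rfl : lv = .inn k := hk
  obtain rfl : m2 = .U := h5.hp.2.2.2.2.2 k rfl hγ
  refine ⟨p2 (e :: A), k, p2 B, ?_, ?_, ?_⟩
  · rw [h3, p2_append]
    rfl
  · rw [p2_length, h4]
  · intro f hf
    obtain ⟨d, hd, rfl⟩ := List.mem_map.1 hf
    exact (h5.hA d hd).2.2.2 k rfl hγ

/-- mode `false`: board 2 is open above the inner pointed entry -/
theorem jn_ald_stuck2 {s t : St} {h : ℕ} (hal : Ald false s t h) (ho : t.OpenTop) (hp : PIn t h)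
    (hl : h < t.stk.length) : JnStuckI s h := by
  obtain ⟨κ, γ, e, A, p, B, h2, h3, h4, h5⟩ := jn_ald_open hal (by rwa [hal.par.jn_length])
  obtain ⟨q, hq, hi⟩ := hp
  have hq' : q = (p.1, p.2.2) := by
    refine jn_entry_unique hq ?_
    rw [h3, ← h4]
    exact jn_entry2
  obtain ⟨k, hk⟩ := jn_inner (l := p.1) (by rw [hq'] at hi; exact hi)
  have he : e.2.2 ≠ .none := jn_open_mark (s := t) (lv := e.1) (t := p2 (A ++ p :: B)) h3 ho
  have hγ : k < γ := by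
    by_contra hc
    exact he ((h5.hA e List.mem_cons_self).2.2.1 k hk (by omega))
  obtain ⟨lv, m1, m2⟩ := p
  obtain rfl : lv = .inn k := hk
  obtain rfl : m1 = .U := h5.hp.2.2.2.2.2 k rfl hγ
  refine ⟨p1 (e :: A), k, p1 B, ?_, ?_, ?_⟩
  · rw [h2, p1_append]
    rfl
  · rw [p1_length, h4]
  · intro f hf
    obtain ⟨d, hd, rfl⟩ := List.mem_map.1 hf
    exact (h5.hA d hd).2.2.2 k rfl hγ

/-- stage A of type 2 -/
theorem jn_t2A {red : List ℕ → List ℕ → Prop} (hyz : AW red YZ ⟨1, 1, 0, false⟩ start start)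
    {ann : Ann} {x1 y1 : St} (hw : AW red XZ ann x1 y1) :
    ∀ x2 y2, ((ann.ph = 6 ∧ y1 = start) ∨ (ann.ph = 2 ∧ Ald true y1 y2 ann.hb ∧
        AW red YZ ⟨1, ann.hb, 0, false⟩ y2 start)) → Ald false x1 x2 ann.ha →
      AW red XZ ⟨6, ann.ha, 0, false⟩ x2 start →
      ∃ x1' x2' y1' y2' h hq, AW red XZ ⟨3, h, 0, false⟩ x1' y1' ∧ y1'.Nonrun ∧ AT y1' hq ∧
        Ald false x1' x2' h ∧ Ald true y1' y2' hq ∧ AW red XZ ⟨6, h, 0, false⟩ x2' start ∧
        AW red YZ ⟨1, hq, 0, false⟩ y2' start := by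
  induction hw with
  | @done ann a b ha hb h hd =>
      intro x2 y2 hp _ _
      have h1 : ann.ph = 5 := hd
      rcases hp with ⟨h2, _⟩ | ⟨h2, _⟩
      · omega
      · omega
  | @pickA ann ann' a b n ha hb h0 ht h ih =>
      intro x2 y2 hp hal hxz
      rcases ht with ⟨_, _, _, rfl⟩ | ⟨_, h2, _⟩ | ⟨_, _, _, rfl⟩ | ⟨h1, _, _, hat, rfl⟩ |
        ⟨_, h2, _⟩ | ⟨h1, _⟩ | ⟨h1, _⟩ | ⟨h1, _⟩ | ⟨h1, _⟩ | ⟨h1, _⟩
      · exact ih x2 y2 hp (hal.pick1 n) hxz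
      · cases h2
      · exact ih x2 y2 hp (hal.pick1 n) hxz
      · rcases hp with ⟨h2, _⟩ | ⟨_, hay, hyz'⟩
        · omega
        · exact ⟨a.pick n, x2, b, y2, ann.ha, ann.hb, h, hb, hat, hal.pick1 n, hay, hxz, hyz'⟩
      · cases h2
      · rcases hp with ⟨h2, _⟩ | ⟨h2, _⟩ <;> omega
      · rcases hp with ⟨h2, _⟩ | ⟨h2, _⟩ <;> omega
      · rcases hp with ⟨h2, _⟩ | ⟨h2, _⟩ <;> omega
      · rcases hp with ⟨h2, _⟩ | ⟨h2, _⟩ <;> omega
      · rcases hp with ⟨h2, _⟩ | ⟨h2, _⟩ <;> omega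
  | @pickB ann ann' a b n ha hb h0 hr ht h ih =>
      intro x2 y2 hp hal hxz
      rcases ht with ⟨_, h2, _⟩ | ⟨_, _, _, h4, rfl⟩ | ⟨_, h2, _⟩ | ⟨_, h2, _⟩ |
        ⟨h1, _, _, _, rfl⟩ | ⟨h1, _⟩ | ⟨h1, _⟩ | ⟨h1, _⟩ | ⟨h1, _⟩ | ⟨h1, _⟩
      · cases h2
      · rcases hp with ⟨_, rfl⟩ | ⟨h2, hay, hyz'⟩
        · exact ih x2 start (Or.inr ⟨rfl, (ald_start true).pick1 n, hyz⟩) hal hxz
        · rename_i h5 _ _
          rcases h5 with h5 | ⟨h5, _⟩
          · omega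
          · omega
      · cases h2
      · cases h2
      · rcases hp with ⟨h2, _⟩ | ⟨h2, hay, hyz'⟩
        · omega
        · exact ih x2 y2 (Or.inr ⟨h2, hay.pick1 n, hyz'⟩) hal hxz
      · rcases hp with ⟨h2, _⟩ | ⟨h2, _⟩ <;> omega
      · rcases hp with ⟨h2, _⟩ | ⟨h2, _⟩ <;> omega
      · rcases hp with ⟨h2, _⟩ | ⟨h2, _⟩ <;> omega
      · rcases hp with ⟨h2, _⟩ | ⟨h2, _⟩ <;> omega
      · rcases hp with ⟨h2, _⟩ | ⟨h2, _⟩ <;> omega
  | @stepA ann a b f T ha hb ht hT h ih =>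
      intro x2 y2 hp hal hxz
      have hw : AW red XZ ann a b := AW.stepA f T ha hb ht hT h
      have hp' : ann.ph = 6 ∨ ann.ph = 2 := by
        rcases hp with ⟨h2, _⟩ | ⟨h2, _⟩
        · exact Or.inl h2
        · exact Or.inr h2
      rcases ht with ⟨_, _, g, hg, rfl⟩ | ⟨_, h2, _⟩ | ⟨_, h2, _⟩ | ⟨h1, _⟩
      · have hat : ¬ AT x2 ann.ha := fun h5 => jn_at_ptr (hal.at_iff.2 h5) hg
        have hst : ¬ JnStuckI a ann.ha := fun h5 => jn_stuckI hw (by omega) h5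
        have hc : x2.OpenTop → ((6 : ℕ) = 1 ∨ ((6 : ℕ) = 6 ∧ PIn x2 ann.ha)) →
            ¬ ann.ha < x2.stk.length := by
          intro ho h6 h7
          rcases h6 with h6 | ⟨_, h6⟩
          · cases h6
          · exact hst (jn_ald_stuck2 hal ho h6 h7)
        obtain ⟨l, hl, x2', hal', hxz'⟩ := jn_step2 hal hg hT
          (jn_xz hxz (Or.inr (Or.inl rfl)) jn_start_nonrun hat hal.jn_ne2 hc)
        exact ih l hl x2' y2 hp hal' hxz'
      · cases h2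
      · cases h2
      · omega
  | @stepB ann a b f T ha hb ht hT h ih =>
      intro x2 y2 hp hal hxz
      rcases ht with ⟨_, h2, _⟩ | ⟨h1, _, g, hg, rfl⟩ | ⟨h1, _⟩ | ⟨h1, _⟩
      · cases h2
      · rcases hp with ⟨h2, _⟩ | ⟨h2, hay, hyz'⟩
        · omega
        · have hat : ¬ AT y2 ann.hb := fun h5 => jn_at_ptr (hay.at_iff.2 h5) hg
          obtain ⟨l, hl, y2', hay', hyz''⟩ := jn_step2 hay hg hT
            (jn_yz1 hyz' jn_start_nonrun hat hay.jn_ne2)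
          exact ih l hl x2 y2' (Or.inr ⟨h2, hay', hyz''⟩) hal hxz
      · rcases hp with ⟨h2, _⟩ | ⟨h2, _⟩ <;> omega
      · rcases hp with ⟨h2, _⟩ | ⟨h2, _⟩ <;> omega

/-- stage C of type 2 -/
theorem jn_t2C {red : List ℕ → List ℕ → Prop} {z1 : St} (hz : z1.Nonrun)
    {ann : Ann} {x1 y1 : St} (hw : AW red XZ ann x1 y1) :
    ∀ x2, ann.ph = 3 → Ald false x1 x2 ann.ha → AW red XZ ⟨3, ann.ha, 0, false⟩ x2 z1 →
      ∃ x1' x2' n m, AW red XZ ⟨4, 0, 0, false⟩ x1' (y1.pick n) ∧ Par x1' x2' ∧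
        AW red XZ ⟨4, 0, 0, false⟩ x2' (z1.pick m) ∧ x1'.Nonrun ∧ x2'.Nonrun := by
  induction hw with
  | @done ann a b ha hb h hd =>
      intro x2 hp _ _
      have h1 : ann.ph = 5 := hd
      omega
  | @pickA ann ann' a b n ha hb h0 ht h ih =>
      intro x2 hp hal hxz
      rcases ht with ⟨h1, _⟩ | ⟨_, h2, _⟩ | ⟨h1, _⟩ | ⟨h1, _⟩ |
        ⟨_, h2, _⟩ | ⟨_, _, _, rfl⟩ | ⟨_, h2, _⟩ | ⟨h1, _⟩ | ⟨h1, _⟩ | ⟨h1, _⟩
      · omega
      · cases h2
      · omega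
      · omega
      · cases h2
      · exact ih x2 hp (hal.pick1 n) hxz
      · cases h2
      · omega
      · omega
      · omega
  | @pickB ann ann' a b n ha hb h0 hr ht h ih =>
      intro x2 hp hal hxz
      rcases ht with ⟨_, h2, _⟩ | ⟨h1, _⟩ | ⟨_, h2, _⟩ | ⟨_, h2, _⟩ |
        ⟨h1, _⟩ | ⟨_, h2, _⟩ | ⟨_, _, hat, rfl⟩ | ⟨h1, _⟩ | ⟨h1, _⟩ | ⟨h1, _⟩
      · cases h2
      · omega
      · cases h2
      · cases h2
      · omega
      · cases h2
      · obtain ⟨hx2, m, hxz'⟩ := jn_xz3_at hxz hz (hal.at_iff.1 hat)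
        exact ⟨a, x2, n, m, h, hal.par, hxz', ha, hx2⟩
      · omega
      · omega
      · omega
  | @stepA ann a b f T ha hb ht hT h ih =>
      intro x2 hp hal hxz
      rcases ht with ⟨_, _, g, hg, rfl⟩ | ⟨_, h2, _⟩ | ⟨_, h2, _⟩ | ⟨h1, _⟩
      · have hat : ¬ AT x2 ann.ha := fun h5 => jn_at_ptr (hal.at_iff.2 h5) hg
        have hc : x2.OpenTop → ((3 : ℕ) = 1 ∨ ((3 : ℕ) = 6 ∧ PIn x2 ann.ha)) →
            ¬ ann.ha < x2.stk.length := by
          intro _ h6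
          omega
        obtain ⟨l, hl, x2', hal', hxz'⟩ := jn_step2 hal hg hT
          (jn_xz hxz (Or.inr (Or.inr rfl)) hz hat hal.jn_ne2 hc)
        exact ih l hl x2' hp hal' hxz'
      · cases h2
      · cases h2
      · omega
  | @stepB ann a b f T ha hb ht hT h ih =>
      intro x2 hp hal hxz
      rcases ht with ⟨_, h2, _⟩ | ⟨h1, _⟩ | ⟨h1, _⟩ | ⟨h1, _⟩
      · cases h2
      · omega
      · omega
      · omega

/-- **type 2** -/
theorem join2 {red : List ℕ → List ℕ → Prop} (hxz : AW red XZ ⟨6, 1, 0, false⟩ start start)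
    (hyz : AW red YZ ⟨1, 1, 0, false⟩ start start) : Tri red := by
  obtain ⟨x1, x2, y1, y2, h, hq, hxy, hy1, hat, hal, hay, hxz2, hyz2⟩ :=
    jn_t2A hyz hxz start start (Or.inl ⟨rfl, rfl⟩) (ald_start false) hxz
  have hF : JnFX false (fun h' s => AW red XZ ⟨3, h', 0, false⟩ s y1) := by
    intro h' s1 s2 hf hal' hat' _
    exact jn_xz hf (Or.inr (Or.inr rfl)) hy1 hat' hal'.jn_ne1 (fun _ h6 => by omega)
  obtain ⟨x1', x2', z1, z2, h', n, hxy', hal', hxz', hz1, pz, hz2, hyz'⟩ :=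
    jn_stAB hF (Or.inr rfl) hxz2 hal hxy hay hat hyz2
  obtain ⟨x1'', x2'', n', m, hxy'', px, hxz'', hx1, hx2⟩ := jn_t2C hz1 hxy' x2' rfl hal' hxz'
  refine jn_stD (FY := fun s t => AW red XZ ⟨4, 0, 0, false⟩ x1'' s ∧ Par s t)
    (fun hf => hf.1.win) (fun hf => hf.2) (fun n hf => ⟨hf.1, hf.2.pick2 n⟩) ?_ px hx2 hyz'
    (y1.pick n') (z1.pick m) rfl ⟨hxy'', (hay.par.pick1 n').pick2 n⟩ (pz.pick1 m) hxz''
  intro s t hf hr _ T hT
  obtain ⟨s', T', hs', hT', hh⟩ := jn_solo4 hf.1 hx1 (fun h0 => ne_nil_of_run hr (hf.2.nil_iff.1 h0))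
  obtain ⟨l1, hl1, l2, hl2, he, _⟩ := big_common 0 hT hT'
  exact ⟨l1, hl1, s'.step l2, hh l2 hl2, ((hf.2.symm.of_pick hs').step he).symm⟩

end Pool.Agent.H90.Ord
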